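import Pool.Agent.LIQuasi.Prime

/-! Locally indicable groups are right-orderable (Burns and Hale). -/

namespace Pool.LIQuasi

/-- right-orderable: there is a total order `r` with `r x y → r (x z) (y z)`. -/
def RO (G : Type*) [Group G] : Prop :=
  ∃ r : G → G → Prop, (∀ x, r x x) ∧ (∀ x y z, r x y → r y z → r x z) ∧
    (∀ x y, r x y → r y x → x = y) ∧ (∀ x y, r x y ∨ r y x) ∧ ∀ x y z, r x y → r (x * z) (y * z)

def sg {G : Type} [Group G] (ε : G → Bool) (x : G) : G := if ε x then x else x⁻¹

theorem finite_signs {G : Type} [Group G] (hG : LI G) (n : ℕ) : ∀ F : Finset G, F.card = n →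
    (1 : G) ∉ F → ∃ ε : G → Bool, (1 : G) ∉ Subsemigroup.closure {y | ∃ x ∈ F, y = sg ε x} := by
  classical
  induction n using Nat.strong_induction_on with
  | _ n ih =>
    intro F hF h1F
    rcases F.eq_empty_or_nonempty with hE | hne
    · refine ⟨fun _ => true, ?_⟩
      subst hE
      have : {y : G | ∃ x ∈ (∅ : Finset G), y = sg (fun _ => true) x} = ∅ := by
        ext y; simp
      rw [this, Subsemigroup.closure_empty]
      exact fun h => h
    · let K : Subgroup G := Subgroup.closure (F : Set G)
      have hFK : ∀ x ∈ F, x ∈ K := fun x hx => Subgroup.subset_closure hx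
      have hKne : K ≠ ⊥ := by
        intro h
        obtain ⟨x, hx⟩ := hne
        have := hFK x hx
        rw [h, Subgroup.mem_bot] at this
        exact h1F (this ▸ hx)
      obtain ⟨f, hf⟩ := hG K ⟨F, rfl⟩ hKne
      let v : G → ℤ := fun x => if h : x ∈ K then Multiplicative.toAdd (f ⟨x, h⟩) else 0
      have hv : ∀ x ∈ K, ∀ y ∈ K, v (x * y) = v x + v y := by
        intro x hx y hy
        simp only [v, dif_pos hx, dif_pos hy, dif_pos (K.mul_mem hx hy)]
        rw [← toAdd_mul, ← map_mul]
        rfl
      have hv1 : v 1 = 0 := by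
        have := hv 1 K.one_mem 1 K.one_mem
        rw [mul_one] at this
        omega
      have hvinv : ∀ x ∈ K, v x⁻¹ = - v x := by
        intro x hx
        have := hv x hx x⁻¹ (K.inv_mem hx)
        rw [mul_inv_cancel, hv1] at this
        omega
      let F0 : Finset G := F.filter (fun x => v x = 0)
      have hF0 : F0.card < n := by
        rw [← hF]
        apply Finset.card_lt_card
        refine ⟨Finset.filter_subset _ _, ?_⟩
        intro hsub
        have hall : ∀ x ∈ K, v x = 0 := by
          intro x hx
          have hle : K ≤ { carrier := {x | x ∈ K ∧ v x = 0}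
                           mul_mem' := by
                             rintro a b ⟨ha, ha'⟩ ⟨hb, hb'⟩
                             exact ⟨K.mul_mem ha hb, by rw [hv a ha b hb, ha', hb', add_zero]⟩
                           one_mem' := ⟨K.one_mem, hv1⟩
                           inv_mem' := by
                             rintro a ⟨ha, ha'⟩
                             exact ⟨K.inv_mem ha, by rw [hvinv a ha, ha', neg_zero]⟩ : Subgroup G } := by
            rw [Subgroup.closure_le]
            intro y hy
            exact ⟨hFK y hy, (Finset.mem_filter.1 (hsub hy)).2⟩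
          exact (hle hx).2
        obtain ⟨⟨y, hy⟩, hy1⟩ := hf (Multiplicative.ofAdd 1)
        have h2 := hall y hy
        simp only [v, dif_pos hy] at h2
        rw [hy1] at h2
        exact one_ne_zero h2
      obtain ⟨ε0, hε0⟩ := ih _ hF0 F0 rfl (fun h => h1F (Finset.mem_filter.1 h).1)
      let ε : G → Bool := fun x => if 0 < v x then true else if v x < 0 then false else ε0 x
      refine ⟨ε, ?_⟩
      have key : ∀ z ∈ Subsemigroup.closure {y | ∃ x ∈ F, y = sg ε x},
          z ∈ K ∧ (0 < v z ∨ (v z = 0 ∧ z ∈ Subsemigroup.closure {y | ∃ x ∈ F0, y = sg ε0 x})) := by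
        intro z hz
        induction hz using Subsemigroup.closure_induction with
        | mem z hz =>
          obtain ⟨x, hx, rfl⟩ := hz
          by_cases hpos : 0 < v x
          · have e : sg ε x = x := by simp [sg, ε, hpos]
            rw [e]
            exact ⟨hFK x hx, Or.inl hpos⟩
          · by_cases hneg : v x < 0
            · have e : sg ε x = x⁻¹ := by simp [sg, ε, hpos, hneg]
              rw [e]
              refine ⟨K.inv_mem (hFK x hx), Or.inl ?_⟩
              rw [hvinv x (hFK x hx)]
              omega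
            · have h0 : v x = 0 := by omega
              have e : sg ε x = sg ε0 x := by simp [sg, ε, h0]
              have hxF0 : x ∈ F0 := Finset.mem_filter.2 ⟨hx, h0⟩
              refine ⟨?_, Or.inr ⟨?_, ?_⟩⟩
              · unfold sg; split_ifs
                · exact hFK x hx
                · exact K.inv_mem (hFK x hx)
              · unfold sg; split_ifs
                · exact h0
                · rw [hvinv x (hFK x hx), h0]; rfl
              · rw [e]
                exact Subsemigroup.subset_closure ⟨x, hxF0, rfl⟩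
        | mul a b _ _ iha ihb =>
          obtain ⟨haK, ha⟩ := iha
          obtain ⟨hbK, hb⟩ := ihb
          refine ⟨K.mul_mem haK hbK, ?_⟩
          rw [hv a haK b hbK]
          rcases ha with ha | ⟨ha, ha'⟩
          · rcases hb with hb | ⟨hb, hb'⟩
            · left; omega
            · left; omega
          · rcases hb with hb | ⟨hb, hb'⟩
            · left; omega
            · right; exact ⟨by omega, Subsemigroup.mul_mem _ ha' hb'⟩
      intro h1
      rcases (key 1 h1).2 with h | ⟨-, h⟩
      · rw [hv1] at h; exact lt_irrefl _ h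
      · exact hε0 h

/-- Burns and Hale: locally indicable groups are right-orderable. -/
theorem LI.ro {G : Type} [Group G] (hG : LI G) : RO G := by
  classical
  have hfin : ∀ F : Finset G, ∃ ε : G → Bool,
      (1 : G) ∉ Subsemigroup.closure {y | ∃ x ∈ F.erase 1, y = sg ε x} :=
    fun F => finite_signs hG _ (F.erase 1) rfl (by simp)
  choose ε hε using hfin
  let U : Ultrafilter (Finset G) := Ultrafilter.of Filter.atTop
  have hU : ∀ {p : Finset G → Prop}, (∀ᶠ F in Filter.atTop, p F) → ∀ᶠ F in (U : Filter (Finset G)), p F :=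
    fun h => (Ultrafilter.of_le _) h
  let P : Set G := {x | x ≠ 1 ∧ ∀ᶠ F in (U : Filter (Finset G)), ε F x = true}
  have hbig : ∀ F0 : Finset G, ∀ᶠ F in (U : Filter (Finset G)), F0 ⊆ F :=
    fun F0 => hU (Filter.eventually_ge_atTop F0)
  have hmem : ∀ (F : Finset G) (x : G), x ∈ F → x ≠ 1 → ε F x = true →
      x ∈ Subsemigroup.closure {y | ∃ x ∈ F.erase 1, y = sg (ε F) x} := by
    intro F x hx hx1 h
    exact Subsemigroup.subset_closure ⟨x, Finset.mem_erase.2 ⟨hx1, hx⟩, by simp [sg, h]⟩
  have hmem' : ∀ (F : Finset G) (x : G), x ∈ F → x ≠ 1 → ε F x = false →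
      x⁻¹ ∈ Subsemigroup.closure {y | ∃ x ∈ F.erase 1, y = sg (ε F) x} := by
    intro F x hx hx1 h
    exact Subsemigroup.subset_closure ⟨x, Finset.mem_erase.2 ⟨hx1, hx⟩, by simp [sg, h]⟩
  have hPmul : ∀ x ∈ P, ∀ y ∈ P, x * y ∈ P := by
    rintro x ⟨hx1, hx⟩ y ⟨hy1, hy⟩
    have hev := (hx.and hy).and (hbig {x, y, x * y})
    have hxy1 : x * y ≠ 1 := by
      intro h
      obtain ⟨F, ⟨hFx, hFy⟩, hF⟩ := hev.exists
      apply hε F
      have h5 := Subsemigroup.mul_mem _ (hmem F x (hF (by simp)) hx1 hFx) (hmem F y (hF (by simp)) hy1 hFy)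
      rwa [h] at h5
    refine ⟨hxy1, ?_⟩
    filter_upwards [hev] with F hF
    obtain ⟨⟨hFx, hFy⟩, hF⟩ := hF
    by_contra hne
    have hfalse : ε F (x * y) = false := by simpa using hne
    apply hε F
    have h1 := hmem' F (x * y) (hF (by simp)) hxy1 hfalse
    have h2 := Subsemigroup.mul_mem _ (hmem F x (hF (by simp)) hx1 hFx) (hmem F y (hF (by simp)) hy1 hFy)
    have h3 := Subsemigroup.mul_mem _ h2 h1
    rwa [mul_inv_cancel] at h3
  have hPinv : ∀ x, x ∈ P → x⁻¹ ∉ P := by
    intro x hx hx'
    have := hPmul x hx _ hx'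
    rw [mul_inv_cancel] at this
    exact this.1 rfl
  have hPtot : ∀ x : G, x ≠ 1 → x ∈ P ∨ x⁻¹ ∈ P := by
    intro x hx1
    by_cases h : ∀ᶠ F in (U : Filter (Finset G)), ε F x = true
    · exact Or.inl ⟨hx1, h⟩
    · right
      refine ⟨inv_ne_one.2 hx1, ?_⟩
      have h' : ∀ᶠ F in (U : Filter (Finset G)), ¬ ε F x = true := Ultrafilter.eventually_not.2 h
      filter_upwards [h', hbig {x, x⁻¹}] with F hF hFx
      by_contra hne
      have h1 : ε F x = false := by simpa using hF
      have h2 : ε F x⁻¹ = false := by simpa using hne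
      apply hε F
      have h3 := hmem' F x (hFx (by simp)) hx1 h1
      have h4 := hmem' F x⁻¹ (hFx (by simp)) (inv_ne_one.2 hx1) h2
      have h5 := Subsemigroup.mul_mem _ h3 h4
      rwa [mul_inv_cancel] at h5
  refine ⟨fun x y => x = y ∨ y * x⁻¹ ∈ P, fun x => Or.inl rfl, ?_, ?_, ?_, ?_⟩
  · rintro x y z (rfl | hxy) (rfl | hyz)
    · exact Or.inl rfl
    · exact Or.inr hyz
    · exact Or.inr hxy
    · right
      have := hPmul _ hyz _ hxy
      have e : z * y⁻¹ * (y * x⁻¹) = z * x⁻¹ := by group
      rwa [e] at this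
  · rintro x y (rfl | hxy) (h | hyx)
    · rfl
    · rfl
    · exact h.symm
    · exfalso
      apply hPinv _ hxy
      have e : (y * x⁻¹)⁻¹ = x * y⁻¹ := by group
      rwa [e]
  · intro x y
    by_cases hxy : x = y
    · exact Or.inl (Or.inl hxy)
    · have h1 : y * x⁻¹ ≠ 1 := by
        intro h
        exact hxy (mul_inv_eq_one.1 h).symm
      rcases hPtot _ h1 with h | h
      · exact Or.inl (Or.inr h)
      · right; right
        have e : (y * x⁻¹)⁻¹ = x * y⁻¹ := by group
        rwa [e] at h
  · rintro x y z (rfl | hxy)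
    · exact Or.inl rfl
    · right
      have e : y * z * (x * z)⁻¹ = y * x⁻¹ := by group
      rwa [e]

end Pool.LIQuasi
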