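import Pool.Agent.LIQuasi.QM
import Pool.Agent.LIQuasi.BH

/-! Soluble right-orderable groups are locally indicable (Chiswell and Kropholler). -/

namespace Pool.LIQuasi

/-- total left-invariant preorders -/
structure LPre (G : Type) [Group G] where
  le : G → G → Prop
  trans : ∀ x y z, le x y → le y z → le x z
  total : ∀ x y, le x y ∨ le y x
  inv : ∀ x y z, le x y → le (z * x) (z * y)

namespace LPre

variable {G : Type} [Group G] (P : LPre G)

theorem refl (x : G) : P.le x x := (P.total x x).elim id id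

theorem inv' {x y : G} (z : G) (h : P.le (z * x) (z * y)) : P.le x y := by
  have := P.inv _ _ z⁻¹ h
  rwa [inv_mul_cancel_left, inv_mul_cancel_left] at this

theorem of_not {x y : G} (h : ¬ P.le x y) : P.le y x := (P.total x y).resolve_left h

/-- case of an element of `A` acting cofinally -/
theorem case3 [Group.FG G] (hsolv : Group.IsSolvable G) (hno : NoZ G) (A : Subgroup G)
    [hAn : A.Normal] (hsw : ∀ a ∈ A, ∀ b ∈ A, ∀ y, P.le (a * (b * y)) (b * (a * y)))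
    (a : G) (ha : a ∈ A) (hpos : ¬ P.le a 1)
    (hlow : ∀ y, ∃ m : ℤ, P.le (a ^ m) y) (hup : ∀ y, ∃ m : ℤ, P.le y (a ^ m)) : False := by
  classical
  have h1a : P.le 1 a := P.of_not hpos
  have hnat : ∀ k : ℕ, P.le 1 (a ^ k) := by
    intro k
    induction k with
    | zero => rw [pow_zero]; exact P.refl 1
    | succ k ih =>
      have h2 := P.inv _ _ (a ^ k) h1a
      rw [mul_one, ← pow_succ] at h2
      exact P.trans _ _ _ ih h2
  have hpl : ∀ m n : ℤ, m ≤ n → P.le (a ^ m) (a ^ n) := by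
    intro m n hmn
    obtain ⟨k, rfl⟩ := Int.le.dest hmn
    have h2 := P.inv _ _ (a ^ m) (hnat k)
    rw [mul_one, ← zpow_natCast, ← zpow_add] at h2
    exact h2
  have hpl' : ∀ m n : ℤ, P.le (a ^ m) (a ^ n) → m ≤ n := by
    intro m n h
    by_contra hlt
    push Not at hlt
    apply hpos
    have h2 : P.le (a ^ (n + 1)) (a ^ m) := hpl _ _ (by omega)
    have h3 := P.trans _ _ _ h2 h
    apply P.inv' (a ^ n)
    rw [mul_one, ← zpow_add_one]
    exact h3
  have hex : ∀ y : G, ∃ p : ℤ, P.le (a ^ p) y ∧ ∀ z : ℤ, P.le (a ^ z) y → z ≤ p := by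
    intro y
    obtain ⟨n, hn⟩ := hup y
    exact Int.exists_greatest_of_bdd ⟨n, fun z hz => hpl' _ _ (P.trans _ _ _ hz hn)⟩ (hlow y)
  choose p hp1 hp2 using hex
  have hp3 : ∀ y (z : ℤ), p y < z → P.le y (a ^ z) := by
    intro y z hz
    apply P.of_not
    intro h
    exact absurd (hp2 y z h) (by omega)
  have hmono : ∀ y z, P.le y z → p y ≤ p z := fun y z h => hp2 _ _ (P.trans _ _ _ (hp1 y) h)
  have hpa : ∀ m : ℤ, p (a ^ m) = m := by
    intro m
    exact le_antisymm (hpl' _ _ (hp1 _)) (hp2 _ _ (P.refl _))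
  have haz : ∀ m : ℤ, a ^ m ∈ A := fun m => A.zpow_mem ha m
  have hlo : ∀ b ∈ A, ∀ y, p b + p y ≤ p (b * y) := by
    intro b hb y
    apply hp2
    have e1 : P.le (b * a ^ (p y)) (b * y) := P.inv _ _ b (hp1 y)
    have e2 := hsw (a ^ (p y)) (haz _) b hb 1
    rw [mul_one, mul_one] at e2
    have e3 : P.le (a ^ (p y) * a ^ (p b)) (a ^ (p y) * b) := P.inv _ _ _ (hp1 b)
    rw [← zpow_add, add_comm] at e3
    exact P.trans _ _ _ e3 (P.trans _ _ _ e2 e1)
  have hhi : ∀ b ∈ A, ∀ y, p (b * y) ≤ p b + p y + 1 := by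
    intro b hb y
    by_contra hcon
    push Not at hcon
    have e0 : P.le (a ^ (p b + p y + 2)) (b * y) :=
      P.trans _ _ _ (hpl _ _ (by omega)) (hp1 (b * y))
    have e1 : P.le (b * y) (b * a ^ (p y + 1)) := P.inv _ _ b (hp3 y _ (by omega))
    have e2 := hsw b hb (a ^ (p y + 1)) (haz _) 1
    rw [mul_one, mul_one] at e2
    have e3 := P.trans _ _ _ e0 (P.trans _ _ _ e1 e2)
    have e4 : a ^ (p b + p y + 2) = a ^ (p y + 1) * a ^ (p b + 1) := by
      rw [← zpow_add]; congr 1; ring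
    rw [e4] at e3
    have e5 := hp2 b _ (P.inv' _ e3)
    omega
  -- the homomorphism τ on A
  obtain ⟨n, hn⟩ := (inferInstance : Group.IsSolvable A).solvable
  obtain ⟨τ', hτ1, hτ2⟩ := qm_hom n hn (fun b : A => ((p (b : G) : ℤ) : ℝ)) 1 (by
    intro x y
    have h1 := hlo x x.2 y
    have h2 := hhi x x.2 y
    have h1' : ((p (x : G) : ℤ) : ℝ) + p (y : G) ≤ p ((x : G) * y) := by exact_mod_cast h1
    have h2' : ((p ((x : G) * y) : ℤ) : ℝ) ≤ p (x : G) + p (y : G) + 1 := by exact_mod_cast h2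
    show |((p ((x : G) * y) : ℤ) : ℝ) - p (x : G) - p (y : G)| ≤ 1
    rw [abs_le]
    constructor <;> linarith)
  let τ : G → ℝ := fun x => if h : x ∈ A then τ' ⟨x, h⟩ else 0
  have hτ : ∀ x (hx : x ∈ A), τ x = τ' ⟨x, hx⟩ := by
    intro x hx; simp only [τ, dif_pos hx]
  have hadd : ∀ x ∈ A, ∀ y ∈ A, τ (x * y) = τ x + τ y := by
    intro x hx y hy
    rw [hτ x hx, hτ y hy, hτ _ (A.mul_mem hx hy), ← hτ2]
    rfl
  have hτp : ∀ x ∈ A, |τ x - p x| ≤ 1 := by
    intro x hx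
    rw [hτ x hx]; exact hτ1 ⟨x, hx⟩
  have hτ0 : τ 1 = 0 := by
    have := hadd 1 A.one_mem 1 A.one_mem
    rw [mul_one] at this
    linarith
  have hτinv : ∀ x ∈ A, τ x⁻¹ = - τ x := by
    intro x hx
    have := hadd x hx x⁻¹ (A.inv_mem hx)
    rw [mul_inv_cancel, hτ0] at this
    linarith
  have hτpow : ∀ x ∈ A, ∀ k : ℕ, τ (x ^ k) = k * τ x := by
    intro x hx k
    induction k with
    | zero => simp [hτ0]
    | succ k ih => rw [pow_succ, hadd _ (A.pow_mem hx k) _ hx, ih]; push_cast; ring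
  have hτzpow : ∀ x ∈ A, ∀ k : ℤ, τ (x ^ k) = k * τ x := by
    intro x hx k
    obtain ⟨j, rfl | rfl⟩ := k.eq_nat_or_neg
    · rw [zpow_natCast, hτpow x hx]; simp
    · rw [zpow_neg, zpow_natCast, hτinv _ (A.pow_mem hx j), hτpow x hx]; push_cast; ring
  have hτa : τ a = 1 := by
    have key : τ a - 1 = 0 := by
      apply eq_zero_of_nat_mul_le (C := 1)
      intro k
      have h2 := hτp (a ^ k) (A.pow_mem ha k)
      have h3 : p (a ^ k) = k := by rw [← zpow_natCast]; exact hpa k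
      rw [h3, hτpow a ha] at h2
      have e : (k : ℝ) * |τ a - 1| = |(k : ℝ) * τ a - ((k : ℤ) : ℝ)| := by
        rw [show (k : ℝ) * τ a - ((k : ℤ) : ℝ) = (k : ℝ) * (τ a - 1) by push_cast; ring, abs_mul,
          Nat.abs_cast]
      rw [e]; exact h2
    linarith
  have hcj : ∀ g x, x ∈ A → g * x * g⁻¹ ∈ A := fun g x hx => hAn.conj_mem x hx g
  -- weak positivity
  have wp : ∀ g, ∀ b ∈ A, 0 < τ b → 0 ≤ τ (g * b * g⁻¹) := by
    intro g b hb hb0
    by_contra hneg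
    push Not at hneg
    obtain ⟨K, hK⟩ := hlow (g * a⁻¹)
    obtain ⟨k, hk⟩ := hlow g⁻¹
    obtain ⟨n1, hn1⟩ := exists_nat_gt ((1 - (k : ℝ)) / τ b)
    obtain ⟨n2, hn2⟩ := exists_nat_gt ((1 - (K : ℝ)) / (- τ (g * b * g⁻¹)))
    have hneg' : 0 < - τ (g * b * g⁻¹) := by linarith
    rw [div_lt_iff₀ hb0] at hn1
    rw [div_lt_iff₀ hneg'] at hn2
    let N := max n1 n2
    have hN1 : (n1 : ℝ) ≤ N := by exact_mod_cast le_max_left _ _
    have hN2 : (n2 : ℝ) ≤ N := by exact_mod_cast le_max_right _ _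
    have b1 : (1 - (k : ℝ)) < N * τ b := lt_of_lt_of_le hn1 (mul_le_mul_of_nonneg_right hN1 hb0.le)
    have b2 : (1 - (K : ℝ)) < N * (- τ (g * b * g⁻¹)) :=
      lt_of_lt_of_le hn2 (mul_le_mul_of_nonneg_right hN2 hneg'.le)
    have c1 := abs_le.1 (hτp (b ^ N) (A.pow_mem hb N))
    rw [hτpow b hb] at c1
    have c2 := abs_le.1 (hτp ((g * b * g⁻¹) ^ N) (A.pow_mem (hcj g b hb) N))
    rw [hτpow _ (hcj g b hb)] at c2
    have d1 : -k ≤ p (b ^ N) := by
      have : ((-k : ℤ) : ℝ) < ((p (b ^ N) : ℤ) : ℝ) := by push_cast; linarith [c1.1, c1.2]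
      exact_mod_cast this.le
    have d2 : p ((g * b * g⁻¹) ^ N) < K := by
      have : ((p ((g * b * g⁻¹) ^ N) : ℤ) : ℝ) < ((K : ℤ) : ℝ) := by linarith [c2.1, c2.2]
      exact_mod_cast this
    have f1 : P.le ((g * b * g⁻¹) ^ N) (a ^ K) := hp3 _ _ d2
    have f2 := P.trans _ _ _ f1 hK
    rw [conj_pow, mul_assoc] at f2
    have f3 : P.le (b ^ N * g⁻¹) a⁻¹ := P.inv' g f2
    have f4 := hlo (b ^ N) (A.pow_mem hb N) g⁻¹
    have f5 : k ≤ p g⁻¹ := hp2 _ _ hk
    have f6 := hmono _ _ f3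
    have f7 : p a⁻¹ = -1 := by rw [← zpow_neg_one]; exact hpa (-1)
    omega
  let lam : G → ℝ := fun g => τ (g * a * g⁻¹)
  have hlam0 : ∀ g, 0 ≤ lam g := fun g => wp g a ha (by rw [hτa]; exact one_pos)
  have hU : ∀ g, ∀ b ∈ A, τ (g * b * g⁻¹) ≤ lam g * τ b := by
    intro g b hb
    by_contra hcon
    push Not at hcon
    have key : τ (g * b * g⁻¹) - lam g * τ b = 0 := by
      apply eq_zero_of_nat_mul_le (C := lam g)
      intro k
      rw [abs_of_pos (by linarith)]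
      let m : ℤ := ⌊(k : ℝ) * τ b⌋ + 1
      have hm1 : (k : ℝ) * τ b < m := by
        have := Int.lt_floor_add_one ((k : ℝ) * τ b)
        simpa [m] using this
      have hm2 : (m : ℝ) ≤ k * τ b + 1 := by
        have := Int.floor_le ((k : ℝ) * τ b)
        simp only [m]; push_cast; linarith
      have hc : a ^ m * (b ^ k)⁻¹ ∈ A := A.mul_mem (haz m) (A.inv_mem (A.pow_mem hb k))
      have hc1 : τ (a ^ m * (b ^ k)⁻¹) = m - k * τ b := by
        rw [hadd _ (haz m) _ (A.inv_mem (A.pow_mem hb k)), hτzpow a ha, hτinv _ (A.pow_mem hb k),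
          hτpow b hb, hτa]; ring
      have hc2 := wp g _ hc (by rw [hc1]; linarith)
      have e : g * (a ^ m * (b ^ k)⁻¹) * g⁻¹ = (g * a * g⁻¹) ^ m * ((g * b * g⁻¹) ^ k)⁻¹ := by
        rw [conj_zpow, conj_pow]; group
      rw [e, hadd _ (A.zpow_mem (hcj g a ha) m) _ (A.inv_mem (A.pow_mem (hcj g b hb) k)),
        hτzpow _ (hcj g a ha), hτinv _ (A.pow_mem (hcj g b hb) k), hτpow _ (hcj g b hb)] at hc2
      have h5 : (m : ℝ) * lam g ≤ (k * τ b + 1) * lam g := mul_le_mul_of_nonneg_right hm2 (hlam0 g)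
      have h6 : (k : ℝ) * τ (g * b * g⁻¹) ≤ m * lam g := by
        have : 0 ≤ (m : ℝ) * lam g + -(k * τ (g * b * g⁻¹)) := hc2
        linarith
      nlinarith
    linarith
  have hprop : ∀ g, ∀ b ∈ A, τ (g * b * g⁻¹) = lam g * τ b := by
    intro g b hb
    apply le_antisymm (hU g b hb)
    have h2 := hU g b⁻¹ (A.inv_mem hb)
    have e : g * b⁻¹ * g⁻¹ = (g * b * g⁻¹)⁻¹ := by group
    rw [e, hτinv _ (hcj g b hb), hτinv b hb] at h2
    linarith
  have hmul : ∀ g h, lam (g * h) = lam g * lam h := by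
    intro g h
    have e : g * h * a * (g * h)⁻¹ = g * (h * a * h⁻¹) * g⁻¹ := by group
    show τ (g * h * a * (g * h)⁻¹) = lam g * τ (h * a * h⁻¹)
    rw [e, hprop g _ (hcj h a ha)]
  have hlam1 : lam 1 = 1 := by
    show τ (1 * a * 1⁻¹) = 1
    rw [one_mul, inv_one, mul_one, hτa]
  have hlampos : ∀ g, 0 < lam g := by
    intro g
    have h1 := hmul g g⁻¹
    rw [mul_inv_cancel, hlam1] at h1
    rcases (hlam0 g).lt_or_eq with h | h
    · exact h
    · rw [← h, zero_mul] at h1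
      exact absurd h1 one_ne_zero
  have hlog := hom_real_zero hno (fun g => Real.log (lam g)) (by
    intro x y
    show Real.log (lam (x * y)) = Real.log (lam x) + Real.log (lam y)
    rw [hmul, Real.log_mul (hlampos x).ne' (hlampos y).ne'])
  have hlam : ∀ g, lam g = 1 := fun g => Real.eq_one_of_pos_of_log_eq_zero (hlampos g) (hlog g)
  -- quasimorphism on G
  have hτg : ∀ g (m : ℤ), τ (g * a ^ m * g⁻¹) = m := by
    intro g m
    rw [hprop g _ (haz m), hlam, hτzpow a ha, hτa]; ring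
  obtain ⟨l, hl⟩ := hsolv.solvable
  obtain ⟨T, hT1, hT2⟩ := qm_hom l hl (fun y : G => ((p y : ℤ) : ℝ)) 3 (by
    intro g y
    have low : p g + p y - 1 ≤ p (g * y) := by
      have h1 := hmono _ _ (P.inv _ _ g (hp1 y))
      have h2 := hlo (g * a ^ (p y) * g⁻¹) (hcj g _ (haz _)) g
      rw [inv_mul_cancel_right] at h2
      have h3 := abs_le.1 (hτp _ (hcj g _ (haz (p y))))
      rw [hτg] at h3
      have h4 : p y - 1 ≤ p (g * a ^ (p y) * g⁻¹) := by
        have : (((p y - 1 : ℤ)) : ℝ) ≤ ((p (g * a ^ (p y) * g⁻¹) : ℤ) : ℝ) := by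
          push_cast; linarith [h3.1, h3.2]
        exact_mod_cast this
      omega
    have high : p (g * y) ≤ p g + p y + 3 := by
      have h1 := hmono _ _ (P.inv _ _ g (hp3 y (p y + 1) (by omega)))
      have h2 := hhi (g * a ^ (p y + 1) * g⁻¹) (hcj g _ (haz _)) g
      rw [inv_mul_cancel_right] at h2
      have h3 := abs_le.1 (hτp _ (hcj g _ (haz (p y + 1))))
      rw [hτg] at h3
      have h4 : p (g * a ^ (p y + 1) * g⁻¹) ≤ p y + 2 := by
        have : ((p (g * a ^ (p y + 1) * g⁻¹) : ℤ) : ℝ) ≤ (((p y + 2 : ℤ)) : ℝ) := by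
          push_cast at h3 ⊢; linarith [h3.1, h3.2]
        exact_mod_cast this
      omega
    have low' : ((p g : ℤ) : ℝ) + p y - 1 ≤ p (g * y) := by exact_mod_cast low
    have high' : ((p (g * y) : ℤ) : ℝ) ≤ p g + p y + 3 := by exact_mod_cast high
    show |((p (g * y) : ℤ) : ℝ) - p g - p y| ≤ 3
    rw [abs_le]
    constructor <;> linarith)
  have hT0 := hom_real_zero hno T hT2
  have h9 := hT1 (a ^ (4 : ℤ))
  rw [hT0] at h9
  have h10 : ((p (a ^ (4 : ℤ)) : ℤ) : ℝ) = 4 := by rw [hpa]; norm_num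
  simp only [h10] at h9
  norm_num at h9

end LPre

namespace LPre

variable {G : Type} [Group G] (P : LPre G)

/-- interval spanned by the `b`-orbit of `h`. -/
def Iv (b h y : G) : Prop := (∃ m : ℤ, P.le (b ^ m * h) y) ∧ ∃ n : ℤ, P.le y (b ^ n * h)

theorem Iv.conv {b h x y z : G} (hx : P.Iv b h x) (hz : P.Iv b h z) (h1 : P.le x y)
    (h2 : P.le y z) : P.Iv b h y := by
  obtain ⟨⟨m, hm⟩, -⟩ := hx
  obtain ⟨-, ⟨n, hn⟩⟩ := hz
  exact ⟨⟨m, P.trans _ _ _ hm h1⟩, ⟨n, P.trans _ _ _ h2 hn⟩⟩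

theorem Iv.trans {a g h y : G} (h1 : P.Iv a h y) (h2 : P.Iv a g h) : P.Iv a g y := by
  obtain ⟨⟨m, hm⟩, ⟨n, hn⟩⟩ := h1
  obtain ⟨⟨i, hi⟩, ⟨j, hj⟩⟩ := h2
  refine ⟨⟨m + i, ?_⟩, ⟨n + j, ?_⟩⟩
  · have := P.inv _ _ (a ^ m) hi
    rw [← mul_assoc, ← zpow_add] at this
    exact P.trans _ _ _ this hm
  · have := P.inv _ _ (a ^ n) hj
    rw [← mul_assoc, ← zpow_add] at this
    exact P.trans _ _ _ hn this

theorem Iv.symm {a g h : G} (h1 : P.Iv a g h) : P.Iv a h g := by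
  obtain ⟨⟨m, hm⟩, ⟨n, hn⟩⟩ := h1
  refine ⟨⟨-n, ?_⟩, ⟨-m, ?_⟩⟩
  · have := P.inv _ _ (a ^ (-n)) hn
    rwa [← mul_assoc, ← zpow_add, neg_add_cancel, zpow_zero, one_mul] at this
  · have := P.inv _ _ (a ^ (-m)) hm
    rwa [← mul_assoc, ← zpow_add, neg_add_cancel, zpow_zero, one_mul] at this

theorem Iv.self_pow (a h : G) (n : ℤ) : P.Iv a h (a ^ n * h) :=
  ⟨⟨n, P.refl _⟩, ⟨n, P.refl _⟩⟩

/-- nestedness -/
theorem nested (A : Subgroup G) (hsw : ∀ a ∈ A, ∀ b ∈ A, ∀ y, P.le (a * (b * y)) (b * (a * y)))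
    {b c : G} (hb : b ∈ A) (hc : c ∈ A) (h : G) :
    (∀ n : ℤ, P.Iv c h (b ^ n * h)) ∨ (∀ n : ℤ, P.Iv b h (c ^ n * h)) := by
  have N1 : ∀ b ∈ A, ∀ c ∈ A, ∀ i : ℤ, ¬ P.Iv c h (b ^ i * h) →
      ∃ i' : ℤ, ∀ n : ℤ, ¬ P.le (b ^ i' * h) (c ^ n * h) := by
    intro b hb c hc i hi
    by_cases hcase : ∃ n : ℤ, P.le (b ^ i * h) (c ^ n * h)
    · refine ⟨-i, fun n hn => hi ⟨⟨-n, ?_⟩, hcase⟩⟩
      have e1 := P.inv _ _ (b ^ i) hn
      rw [← mul_assoc, ← zpow_add, add_neg_cancel, zpow_zero, one_mul] at e1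
      have e2 := P.inv _ _ (c ^ (-n)) e1
      have e3 := hsw (c ^ (-n)) (A.zpow_mem hc _) (b ^ i) (A.zpow_mem hb _) (c ^ n * h)
      have e4 : c ^ (-n) * (c ^ n * h) = h := by
        rw [← mul_assoc, ← zpow_add, neg_add_cancel, zpow_zero, one_mul]
      rw [e4] at e3
      exact P.trans _ _ _ e2 e3
    · push Not at hcase
      exact ⟨i, hcase⟩
  by_contra hcon
  push Not at hcon
  obtain ⟨⟨i, hi⟩, ⟨j, hj⟩⟩ := hcon
  obtain ⟨i', hi'⟩ := N1 b hb c hc i hi
  obtain ⟨j', hj'⟩ := N1 c hc b hb j hj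
  rcases P.total (b ^ i' * h) (c ^ j' * h) with h1 | h1
  · exact hi' _ h1
  · exact hj' _ h1

theorem Iv_of_pow {b c h y : G} (h1 : ∀ n : ℤ, P.Iv c h (b ^ n * h)) (hy : P.Iv b h y) :
    P.Iv c h y := by
  obtain ⟨⟨m, hm⟩, ⟨n, hn⟩⟩ := hy
  exact Iv.conv P (h1 m) (h1 n) hm hn

/-- the case without cofinal elements -/
theorem case2 [hfg : Group.FG G] (A : Subgroup G) [hAn : A.Normal]
    (hsw : ∀ a ∈ A, ∀ b ∈ A, ∀ y, P.le (a * (b * y)) (b * (a * y)))
    (ih : ∀ Q : LPre G, (∀ a ∈ A, Q.le a 1) → ∀ x y, Q.le x y)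
    (hU : ∀ g, ∃ a ∈ A, P.le g a) (hL : ∀ g, ∃ a ∈ A, P.le a g) :
    ∃ a ∈ A, ∀ y, P.Iv a 1 y := by
  classical
  by_contra hcon
  push Not at hcon
  have hnest : ∀ b ∈ A, ∀ c ∈ A, (∀ y, P.Iv b 1 y → P.Iv c 1 y) ∨ (∀ y, P.Iv c 1 y → P.Iv b 1 y) := by
    intro b hb c hc
    rcases P.nested A hsw hb hc 1 with h | h
    · exact Or.inl fun y hy => P.Iv_of_pow h hy
    · exact Or.inr fun y hy => P.Iv_of_pow h hy
  have hcov : ∀ y, ∃ c ∈ A, P.Iv c 1 y := by
    intro y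
    obtain ⟨a2, ha2, h2⟩ := hU y
    obtain ⟨a1, ha1, h1⟩ := hL y
    have s1 : P.Iv a1 1 a1 := by simpa using Iv.self_pow P a1 1 1
    have s2 : P.Iv a2 1 a2 := by simpa using Iv.self_pow P a2 1 1
    rcases hnest a1 ha1 a2 ha2 with h | h
    · exact ⟨a2, ha2, Iv.conv P (h _ s1) s2 h1 h2⟩
    · exact ⟨a1, ha1, Iv.conv P s1 (h _ s2) h1 h2⟩
  let Fi : A → Filter G := fun c => Filter.principal {a | a ∈ A ∧ ∀ y, P.Iv c 1 y → P.Iv a 1 y}
  have hdir : Directed (· ≥ ·) Fi := by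
    intro b c
    rcases hnest b b.2 c c.2 with h | h
    · refine ⟨c, ?_, le_refl _⟩
      apply Filter.principal_mono.2
      rintro a ⟨ha, ha'⟩
      exact ⟨ha, fun y hy => ha' y (h y hy)⟩
    · refine ⟨b, le_refl _, ?_⟩
      apply Filter.principal_mono.2
      rintro a ⟨ha, ha'⟩
      exact ⟨ha, fun y hy => ha' y (h y hy)⟩
  have hne : (⨅ c : A, Fi c).NeBot := by
    apply Filter.iInf_neBot_of_directed' hdir
    intro c
    exact Filter.principal_neBot_iff.2 ⟨c, c.2, fun y hy => hy⟩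
  let U : Ultrafilter G := Ultrafilter.of (⨅ c : A, Fi c)
  have hUF : ∀ c ∈ A, ∀ᶠ a in (U : Filter G), a ∈ A ∧ ∀ y, P.Iv c 1 y → P.Iv a 1 y := by
    intro c hc
    have h1 : (U : Filter G) ≤ ⨅ c : A, Fi c := Ultrafilter.of_le _
    have h2 : (⨅ c : A, Fi c) ≤ Fi ⟨c, hc⟩ := iInf_le _ _
    exact (h1.trans h2) (Filter.mem_principal_self _)
  have hev : ∀ y, ∀ᶠ a in (U : Filter G), a ∈ A ∧ P.Iv a 1 y := by
    intro y
    obtain ⟨c, hc, hy⟩ := hcov y
    filter_upwards [hUF c hc] with a ha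
    exact ⟨ha.1, ha.2 y hy⟩
  let Q : LPre G :=
    { le := fun x z => ∀ᶠ a in (U : Filter G), ∀ y, P.Iv a 1 y → P.Iv a 1 (z⁻¹ * (x * y))
      trans := by
        intro x z w h1 h2
        filter_upwards [h1, h2] with a ha1 ha2 y hy
        have := ha2 _ (ha1 y hy)
        rwa [mul_inv_cancel_left] at this
      total := by
        intro x z
        rw [← Ultrafilter.eventually_or]
        filter_upwards [hev (z⁻¹ * x)] with a ha
        obtain ⟨haA, hk⟩ := ha
        have hk1 : P.Iv a (z⁻¹ * x) 1 := Iv.symm P hk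
        have hbA : (z⁻¹ * x) * a * (z⁻¹ * x)⁻¹ ∈ A := hAn.conj_mem a haA _
        have hbm : ∀ m : ℤ, ((z⁻¹ * x) * a * (z⁻¹ * x)⁻¹) ^ m * (z⁻¹ * x) = (z⁻¹ * x) * a ^ m := by
          intro m
          rw [conj_zpow, inv_mul_cancel_right]
        rcases P.nested A hsw hbA haA (z⁻¹ * x) with h | h
        · left
          intro y hy
          obtain ⟨⟨m, hm⟩, ⟨n, hn⟩⟩ := hy
          rw [mul_one] at hm hn
          have e1 : P.Iv a 1 ((z⁻¹ * x) * a ^ m) := by
            have := h m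
            rw [hbm] at this
            exact Iv.trans P this hk
          have e2 : P.Iv a 1 ((z⁻¹ * x) * a ^ n) := by
            have := h n
            rw [hbm] at this
            exact Iv.trans P this hk
          have := Iv.conv P e1 e2 (P.inv _ _ (z⁻¹ * x) hm) (P.inv _ _ (z⁻¹ * x) hn)
          rwa [mul_assoc] at this
        · right
          intro y hy
          have hy' : P.Iv a (z⁻¹ * x) y := Iv.trans P hy hk1
          obtain ⟨⟨m, hm⟩, ⟨n, hn⟩⟩ := hy'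
          obtain ⟨⟨i, hi⟩, -⟩ := h m
          obtain ⟨-, ⟨j, hj⟩⟩ := h n
          rw [hbm] at hi hj
          have f1 : P.le ((z⁻¹ * x) * a ^ i) y := P.trans _ _ _ hi hm
          have f2 : P.le y ((z⁻¹ * x) * a ^ j) := P.trans _ _ _ hn hj
          have e : x⁻¹ * (z * y) = (z⁻¹ * x)⁻¹ * y := by group
          rw [e]
          refine ⟨⟨i, ?_⟩, ⟨j, ?_⟩⟩
          · rw [mul_one]
            apply P.inv' (z⁻¹ * x)
            rwa [mul_inv_cancel_left]
          · rw [mul_one]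
            apply P.inv' (z⁻¹ * x)
            rwa [mul_inv_cancel_left]
      inv := by
        intro x z w h1
        filter_upwards [h1] with a ha y hy
        have := ha y hy
        have e : (w * z)⁻¹ * (w * x * y) = z⁻¹ * (x * y) := by group
        rwa [e] }
  have hQA : ∀ b ∈ A, Q.le b 1 := by
    intro b hb
    show ∀ᶠ a in (U : Filter G), ∀ y, P.Iv a 1 y → P.Iv a 1 (1⁻¹ * (b * y))
    filter_upwards [hev b] with a ha y hy
    obtain ⟨haA, hba⟩ := ha
    rw [inv_one, one_mul]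
    obtain ⟨⟨m, hm⟩, ⟨n, hn⟩⟩ := hy
    obtain ⟨⟨i, hi⟩, ⟨j, hj⟩⟩ := hba
    refine ⟨⟨m + i, ?_⟩, ⟨n + j, ?_⟩⟩
    · have e1 := P.inv _ _ b hm
      have e2 := hsw (a ^ m) (A.zpow_mem haA m) b hb 1
      have e3 := P.inv _ _ (a ^ m) hi
      rw [← mul_assoc, ← zpow_add] at e3
      rw [mul_one b] at e2
      exact P.trans _ _ _ e3 (P.trans _ _ _ e2 e1)
    · have e1 := P.inv _ _ b hn
      have e2 := hsw b hb (a ^ n) (A.zpow_mem haA n) 1
      have e3 := P.inv _ _ (a ^ n) hj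
      rw [← mul_assoc, ← zpow_add] at e3
      rw [mul_one b] at e2
      exact P.trans _ _ _ e1 (P.trans _ _ _ e2 e3)
  have hQ := ih Q hQA
  obtain ⟨S, hS⟩ := Group.fg_def.1 hfg
  have hall : ∀ᶠ a in (U : Filter G), ∀ s ∈ S, (∀ y, P.Iv a 1 y → P.Iv a 1 (s * y)) ∧
      (∀ y, P.Iv a 1 y → P.Iv a 1 (s⁻¹ * y)) := by
    rw [Filter.eventually_all_finset]
    intro s _
    have h1 : ∀ᶠ a in (U : Filter G), ∀ y, P.Iv a 1 y → P.Iv a 1 (1⁻¹ * (s * y)) := hQ s 1
    have h2 : ∀ᶠ a in (U : Filter G), ∀ y, P.Iv a 1 y → P.Iv a 1 (s⁻¹ * (1 * y)) := hQ 1 s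
    filter_upwards [h1, h2] with a ha1 ha2
    refine ⟨fun y hy => ?_, fun y hy => ?_⟩
    · have := ha1 y hy
      rwa [inv_one, one_mul] at this
    · have := ha2 y hy
      rwa [one_mul] at this
  obtain ⟨a, haS, haA, -⟩ := (hall.and (hev 1)).exists
  obtain ⟨y, hy⟩ := hcon a haA
  apply hy
  have hgen : ∀ g ∈ Subgroup.closure (S : Set G), (∀ y, P.Iv a 1 y → P.Iv a 1 (g * y)) ∧
      (∀ y, P.Iv a 1 y → P.Iv a 1 (g⁻¹ * y)) := by
    intro g hg
    induction hg using Subgroup.closure_induction with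
    | mem s hs => exact haS s hs
    | one => exact ⟨fun y hy => by rwa [one_mul], fun y hy => by rwa [inv_one, one_mul]⟩
    | mul g h _ _ ihg ihh =>
      refine ⟨fun y hy => ?_, fun y hy => ?_⟩
      · rw [mul_assoc]; exact ihg.1 _ (ihh.1 _ hy)
      · rw [mul_inv_rev, mul_assoc]; exact ihh.2 _ (ihg.2 _ hy)
    | inv g _ ihg => exact ⟨ihg.2, fun y hy => by rw [inv_inv]; exact ihg.1 y hy⟩
  have h1 : P.Iv a 1 1 := by simpa using Iv.self_pow P a 1 0
  have := (hgen y (by rw [hS]; trivial)).1 1 h1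
  rwa [mul_one] at this

/-- induction step -/
theorem step [hfg : Group.FG G] (hsolv : Group.IsSolvable G) (hno : NoZ G) (A : Subgroup G)
    [hAn : A.Normal] (hsw : ∀ a ∈ A, ∀ b ∈ A, ∀ y, P.le (a * (b * y)) (b * (a * y)))
    (ih : ∀ Q : LPre G, (∀ a ∈ A, Q.le a 1) → ∀ x y, Q.le x y) : ∀ x y, P.le x y := by
  let Q : LPre G :=
    { le := fun x y => ∃ b ∈ A, P.le x (y * b)
      trans := by
        rintro x y z ⟨b, hb, h1⟩ ⟨c, hc, h2⟩
        refine ⟨(z⁻¹ * (y * b * y⁻¹) * z) * c, A.mul_mem ?_ hc, ?_⟩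
        · have := hAn.conj_mem _ (hAn.conj_mem b hb y) z⁻¹
          rwa [inv_inv] at this
        · have e1 := P.inv _ _ (y * b * y⁻¹) h2
          rw [inv_mul_cancel_right] at e1
          have e2 : y * b * y⁻¹ * (z * c) = z * (z⁻¹ * (y * b * y⁻¹) * z * c) := by group
          rw [e2] at e1
          exact P.trans _ _ _ h1 e1
      total := by
        intro x y
        rcases P.total x y with h | h
        · exact Or.inl ⟨1, A.one_mem, by rwa [mul_one]⟩
        · exact Or.inr ⟨1, A.one_mem, by rwa [mul_one]⟩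
      inv := by
        rintro x y z ⟨b, hb, h⟩
        refine ⟨b, hb, ?_⟩
        rw [mul_assoc]
        exact P.inv _ _ z h }
  have hQ := ih Q (fun a ha => ⟨a, ha, by rw [one_mul]; exact P.refl a⟩)
  have hU : ∀ g, ∃ a ∈ A, P.le g a := by
    intro g
    obtain ⟨b, hb, h⟩ := hQ g 1
    exact ⟨b, hb, by rwa [one_mul] at h⟩
  have hL : ∀ g, ∃ a ∈ A, P.le a g := by
    intro g
    obtain ⟨b, hb, h⟩ := hQ 1 g
    refine ⟨(g * b * g⁻¹)⁻¹, A.inv_mem (hAn.conj_mem b hb g), ?_⟩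
    have e1 := P.inv _ _ (g * b * g⁻¹)⁻¹ h
    have e2 : (g * b * g⁻¹)⁻¹ * (g * b) = g := by group
    rwa [mul_one, e2] at e1
  obtain ⟨a, ha, hcof⟩ := P.case2 A hsw ih hU hL
  by_contra hnt
  have hlow : ∀ y, ∃ m : ℤ, P.le (a ^ m) y := by
    intro y
    obtain ⟨⟨m, hm⟩, -⟩ := hcof y
    exact ⟨m, by rwa [mul_one] at hm⟩
  have hup : ∀ y, ∃ m : ℤ, P.le y (a ^ m) := by
    intro y
    obtain ⟨-, ⟨m, hm⟩⟩ := hcof y
    exact ⟨m, by rwa [mul_one] at hm⟩
  by_cases h1 : P.le a 1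
  · by_cases h2 : P.le 1 a
    · apply hnt
      -- all powers of a are equivalent to 1
      have hnat : ∀ k : ℕ, P.le (a ^ k) 1 ∧ P.le 1 (a ^ k) := by
        intro k
        induction k with
        | zero => rw [pow_zero]; exact ⟨P.refl 1, P.refl 1⟩
        | succ k ih =>
          have e1 := P.inv _ _ (a ^ k) h1
          have e2 := P.inv _ _ (a ^ k) h2
          rw [mul_one, ← pow_succ] at e1 e2
          exact ⟨P.trans _ _ _ e1 ih.1, P.trans _ _ _ ih.2 e2⟩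
      have hint : ∀ k : ℤ, P.le (a ^ k) 1 ∧ P.le 1 (a ^ k) := by
        intro k
        obtain ⟨j, rfl | rfl⟩ := k.eq_nat_or_neg
        · rw [zpow_natCast]; exact hnat j
        · rw [zpow_neg, zpow_natCast]
          obtain ⟨e1, e2⟩ := hnat j
          constructor
          · apply P.inv' (a ^ j)
            rwa [mul_inv_cancel, mul_one]
          · apply P.inv' (a ^ j)
            rwa [mul_inv_cancel, mul_one]
      intro x y
      obtain ⟨m, hm⟩ := hup x
      obtain ⟨n, hn⟩ := hlow y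
      exact P.trans _ _ _ (P.trans _ _ _ hm (hint m).1) (P.trans _ _ _ (hint n).2 hn)
    · refine P.case3 hsolv hno A hsw a⁻¹ (A.inv_mem ha) ?_ ?_ ?_
      · intro h
        apply h2
        have := P.inv _ _ a h
        rwa [mul_inv_cancel, mul_one] at this
      · intro y
        obtain ⟨m, hm⟩ := hlow y
        exact ⟨-m, by rwa [inv_zpow, zpow_neg, inv_inv]⟩
      · intro y
        obtain ⟨m, hm⟩ := hup y
        exact ⟨-m, by rwa [inv_zpow, zpow_neg, inv_inv]⟩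
  · exact P.case3 hsolv hno A hsw a ha h1 hlow hup

end LPre

/-- Chiswell and Kropholler, in terms of preorders. -/
theorem ck {G : Type} [Group G] [Group.FG G] (hsolv : Group.IsSolvable G) (hno : NoZ G)
    (P : LPre G) : ∀ x y, P.le x y := by
  have claim : ∀ n : ℕ, ∀ P : LPre G, (∀ a ∈ derivedSeries G n, P.le a 1) → ∀ x y, P.le x y := by
    intro n
    induction n with
    | zero =>
      intro P hP x y
      have h1 := P.inv _ _ y (hP (y⁻¹ * x) trivial)
      rwa [mul_inv_cancel_left, mul_one] at h1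
    | succ n ih =>
      intro P hP
      refine P.step hsolv hno (derivedSeries G n) ?_ ih
      intro a ha b hb y
      have hmem : y⁻¹ * (a⁻¹ * b⁻¹ * a * b) * y ∈ derivedSeries G (n + 1) := by
        have hc : a⁻¹ * b⁻¹ * a * b ∈ derivedSeries G (n + 1) := by
          rw [derivedSeries_succ]
          have := Subgroup.commutator_mem_commutator (Subgroup.inv_mem _ ha) (Subgroup.inv_mem _ hb)
          rw [commutatorElement_def, inv_inv, inv_inv] at this
          exact this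
        have hn : (derivedSeries G (n + 1)).Normal := inferInstance
        have := hn.conj_mem _ hc y⁻¹
        rwa [inv_inv] at this
      have h1 := P.inv _ _ (b * (a * y)) (hP _ hmem)
      have e : b * (a * y) * (y⁻¹ * (a⁻¹ * b⁻¹ * a * b) * y) = a * (b * y) := by group
      rwa [e, mul_one] at h1
  obtain ⟨n, hn⟩ := hsolv.solvable
  apply claim n P
  intro a ha
  rw [hn, Subgroup.mem_bot] at ha
  rw [ha]
  exact P.refl 1

/-- soluble right-orderable groups are locally indicable. -/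
theorem RO.li {G : Type} [Group G] (hG : RO G) (hs : Group.IsSolvable G) : LI G := by
  by_contra hLI
  obtain ⟨K, hKfg, hKnt, hK⟩ := exists_bad hLI
  obtain ⟨r, hr1, hr2, hr3, hr4, hr5⟩ := hG
  let P : LPre K :=
    { le := fun x y => r (x : G)⁻¹ (y : G)⁻¹
      trans := fun x y z h1 h2 => hr2 _ _ _ h1 h2
      total := fun x y => hr4 _ _
      inv := by
        intro x y z h
        have := hr5 _ _ (z : G)⁻¹ h
        show r ((z * x : K) : G)⁻¹ ((z * y : K) : G)⁻¹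
        rw [Subgroup.coe_mul, Subgroup.coe_mul, mul_inv_rev, mul_inv_rev]
        exact this }
  have hall := ck (inferInstance : Group.IsSolvable K) hK P
  obtain ⟨x, hx⟩ := exists_ne (1 : K)
  apply hx
  have h1 : (x : G)⁻¹ = (1 : K)⁻¹ := hr3 _ _ (hall x 1) (hall 1 x)
  apply Subtype.ext
  exact inv_injective (by simpa using h1)

end Pool.LIQuasi
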