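import Mathlib

/-! Locally indicable groups and quasi-identities (for MP_b18726_al). -/

namespace Pool.LIQuasi

/-- every homomorphism to `ℤ` is trivial. -/
def NoZ (G : Type*) [Group G] : Prop := ∀ f : G →* Multiplicative ℤ, f = 1

/-- locally indicable: every nontrivial f.g. subgroup maps onto `ℤ`. -/
def LI (G : Type*) [Group G] : Prop :=
  ∀ H : Subgroup G, H.FG → H ≠ ⊥ → ∃ f : H →* Multiplicative ℤ, Function.Surjective f

/-- torsion-free. -/
def TF (G : Type*) [Group G] : Prop := ∀ g : G, ∀ n : ℕ, 1 ≤ n → g ^ n = 1 → g = 1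

/-- Quasi-identities. -/
structure QId where
  vars : ℕ
  prem : List (FreeGroup (Fin vars))
  concl : FreeGroup (Fin vars)

/-- `q` holds in `G`. -/
def QId.Holds (q : QId) (G : Type*) [Group G] : Prop :=
  ∀ x : Fin q.vars → G, (∀ u ∈ q.prem, FreeGroup.lift x u = 1) → FreeGroup.lift x q.concl = 1

/-- a nonzero homomorphism to `ℤ` yields a surjective one. -/
theorem exists_surj {G : Type*} [Group G] (f : G →* Multiplicative ℤ) (hf : f ≠ 1) :
    ∃ g : G →* Multiplicative ℤ, Function.Surjective g := by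
  let R : AddSubgroup ℤ := AddSubgroup.map (MonoidHom.toAdditive f : Additive G →+ ℤ) ⊤
  obtain ⟨d, hd⟩ := Int.subgroup_cyclic R
  have hmem : ∀ x : G, d ∣ Multiplicative.toAdd (f x) := by
    intro x
    have h1 : Multiplicative.toAdd (f x) ∈ R := ⟨Additive.ofMul x, trivial, rfl⟩
    rw [hd, AddSubgroup.mem_closure_singleton] at h1
    obtain ⟨n, hn⟩ := h1
    exact ⟨n, by rw [← hn, smul_eq_mul, mul_comm]⟩
  have hd0 : d ≠ 0 := by
    rintro rfl
    apply hf
    ext x
    have := hmem x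
    rw [zero_dvd_iff] at this
    exact this
  have hdR : d ∈ R := by
    rw [hd]; exact AddSubgroup.mem_closure_singleton.2 ⟨1, by simp⟩
  obtain ⟨x0, -, hx0⟩ := hdR
  have hx0' : Multiplicative.toAdd (f (Additive.toMul x0)) = d := hx0
  refine ⟨MonoidHom.mk' (fun x => Multiplicative.ofAdd (Multiplicative.toAdd (f x) / d)) ?_, ?_⟩
  · intro a b
    show Multiplicative.ofAdd (Multiplicative.toAdd (f (a * b)) / d) = _
    rw [map_mul, toAdd_mul, Int.add_ediv_of_dvd_left (hmem a)]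
    rfl
  · intro z
    refine ⟨(Additive.toMul x0) ^ (Multiplicative.toAdd z), ?_⟩
    show Multiplicative.ofAdd (Multiplicative.toAdd (f ((Additive.toMul x0) ^ (Multiplicative.toAdd z))) / d) = z
    rw [map_zpow, toAdd_zpow, hx0', smul_eq_mul, Int.mul_ediv_cancel _ hd0]
    rfl

theorem fg_map {G H : Type*} [Group G] [Group H] (f : G →* H) (K : Subgroup G) (hK : K.FG) :
    (K.map f).FG := by
  rw [← Group.fg_iff_subgroup_fg] at hK ⊢
  exact Group.fg_of_surjective (MonoidHom.subgroupMap_surjective f K)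

theorem LI.of_injective {G H : Type*} [Group G] [Group H] (hG : LI G) (f : H →* G)
    (hf : Function.Injective f) : LI H := by
  intro K hK hne
  have h1 : (K.map f).FG := fg_map f K hK
  have h2 : K.map f ≠ ⊥ := by
    intro h
    rw [Subgroup.map_eq_bot_iff_of_injective _ hf] at h
    exact hne h
  obtain ⟨g, hg⟩ := hG _ h1 h2
  refine ⟨g.comp (f.subgroupMap K), hg.comp (MonoidHom.subgroupMap_surjective f K)⟩

/-- criterion for local indicability: each nontrivial f.g. subgroup has a homomorphism to `G`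
with image in an LI subgroup `N`, nontrivial. -/
theorem LI.of_local {L : Type*} [Group L]
    (h : ∀ K : Subgroup L, K.FG → K ≠ ⊥ → ∃ (C : Type) (_ : Group C) (f : L →* C) (N : Subgroup C),
      LI N ∧ K.map f ≤ N ∧ K.map f ≠ ⊥) : LI L := by
  intro K hK hne
  obtain ⟨C, _, f, N, hN, hle, hne'⟩ := h K hK hne
  have hLI : LI (K.map f) := hN.of_injective (Subgroup.inclusion hle) (Subgroup.inclusion_injective hle)
  have hfg : (⊤ : Subgroup (K.map f)).FG := by
    rw [← Group.fg_def]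
    exact (Group.fg_iff_subgroup_fg _).2 (fg_map f K hK)
  have hnt : (⊤ : Subgroup (K.map f)) ≠ ⊥ := by
    intro h0
    apply hne'
    rw [eq_bot_iff]
    intro x hx
    have : (⟨x, hx⟩ : K.map f) ∈ (⊤ : Subgroup (K.map f)) := trivial
    rw [h0, Subgroup.mem_bot] at this
    rw [Subgroup.mem_bot]
    exact congrArg Subtype.val this
  obtain ⟨g, hg⟩ := hLI ⊤ hfg hnt
  refine ⟨(g.comp (Subgroup.topEquiv.symm.toMonoidHom)).comp (f.subgroupMap K), ?_⟩
  exact (hg.comp Subgroup.topEquiv.symm.surjective).comp (MonoidHom.subgroupMap_surjective f K)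

/-- If `C` has no nonzero homomorphism to `ℤ`, then neither has any `C`-invariant
homomorphism defined on a normal subgroup `M` with `C/M` abelian of exponent `p`. -/
theorem invariant_zero {C : Type*} [Group C] (hC : NoZ C) (M : Subgroup C) [hMn : M.Normal]
    (hcomm : ∀ x y : C, x * y * x⁻¹ * y⁻¹ ∈ M) (p : ℕ) (hp : p ≠ 0) (hpow : ∀ x : C, x ^ p ∈ M)
    (θ : C → ℤ) (hadd : ∀ x ∈ M, ∀ y ∈ M, θ (x * y) = θ x + θ y)
    (hinv : ∀ c : C, ∀ m ∈ M, θ (c * m * c⁻¹) = θ m) : ∀ m ∈ M, θ m = 0 := by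
  have h1 : θ 1 = 0 := by
    have := hadd 1 M.one_mem 1 M.one_mem
    rw [mul_one] at this
    omega
  have hinvm : ∀ x ∈ M, θ x⁻¹ = - θ x := by
    intro x hx
    have := hadd x hx x⁻¹ (M.inv_mem hx)
    rw [mul_inv_cancel, h1] at this
    omega
  -- the kernel
  let K : Subgroup C :=
    { carrier := {x | x ∈ M ∧ θ x = 0}
      mul_mem' := by
        rintro a b ⟨ha, ha'⟩ ⟨hb, hb'⟩
        exact ⟨M.mul_mem ha hb, by rw [hadd a ha b hb, ha', hb', add_zero]⟩
      one_mem' := ⟨M.one_mem, h1⟩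
      inv_mem' := by
        rintro a ⟨ha, ha'⟩
        exact ⟨M.inv_mem ha, by rw [hinvm a ha, ha', neg_zero]⟩ }
  have hKmem : ∀ x, x ∈ K ↔ x ∈ M ∧ θ x = 0 := fun x => Iff.rfl
  haveI hKn : K.Normal := by
    constructor
    rintro n ⟨hn, hn'⟩ g
    exact ⟨hMn.conj_mem n hn g, by rw [hinv g n hn, hn']⟩
  -- commutators lie in K
  have hck : ∀ x y : C, ∀ k : ℕ, θ (x ^ k * y * (x ^ k)⁻¹ * y⁻¹) = k * θ (x * y * x⁻¹ * y⁻¹) := by
    intro x y k
    induction k with
    | zero => simp [h1]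
    | succ k ih =>
      have e : x ^ (k + 1) * y * (x ^ (k + 1))⁻¹ * y⁻¹
          = (x ^ k * (x * y * x⁻¹ * y⁻¹) * (x ^ k)⁻¹) * (x ^ k * y * (x ^ k)⁻¹ * y⁻¹) := by
        rw [pow_succ]; group
      rw [e, hadd _ (hMn.conj_mem _ (hcomm x y) _) _ (hcomm _ _), hinv _ _ (hcomm x y), ih]
      push_cast
      ring
  have hcK : ∀ x y : C, x * y * x⁻¹ * y⁻¹ ∈ K := by
    intro x y
    refine ⟨hcomm x y, ?_⟩
    have e1 := hck x y p
    have e2 : x ^ p * y * (x ^ p)⁻¹ * y⁻¹ = x ^ p * (y * (x ^ p)⁻¹ * y⁻¹) := by group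
    have e3 : θ (x ^ p * y * (x ^ p)⁻¹ * y⁻¹) = 0 := by
      rw [e2, hadd _ (hpow x) _ (hMn.conj_mem _ (M.inv_mem (hpow x)) y),
        hinv y _ (M.inv_mem (hpow x)), hinvm _ (hpow x)]
      ring
    rw [e3] at e1
    rcases mul_eq_zero.1 e1.symm with h | h
    · exact absurd (by exact_mod_cast h) hp
    · exact h
  -- the homomorphism `x ↦ θ (x ^ p)`
  have hT : ∀ x y : C, θ ((x * y) ^ p) = θ (x ^ p) + θ (y ^ p) := by
    intro x y
    have hc : Commute (QuotientGroup.mk x : C ⧸ K) (QuotientGroup.mk y) := by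
      show (QuotientGroup.mk x : C ⧸ K) * QuotientGroup.mk y = QuotientGroup.mk y * QuotientGroup.mk x
      rw [← QuotientGroup.mk_mul, ← QuotientGroup.mk_mul, QuotientGroup.eq]
      have := hcK y⁻¹ x⁻¹
      have e : (x * y)⁻¹ * (y * x) = y⁻¹ * x⁻¹ * (y⁻¹)⁻¹ * (x⁻¹)⁻¹ := by group
      rw [e]; exact this
    have h2 : (QuotientGroup.mk ((x * y) ^ p) : C ⧸ K) = QuotientGroup.mk (x ^ p * y ^ p) := by
      rw [QuotientGroup.mk_pow, QuotientGroup.mk_mul, hc.mul_pow, QuotientGroup.mk_mul,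
        QuotientGroup.mk_pow, QuotientGroup.mk_pow]
    have h3 := QuotientGroup.eq.1 h2.symm
    have h4 := h3.2
    rw [hadd _ (M.inv_mem (M.mul_mem (hpow x) (hpow y))) _ (hpow _),
      hinvm _ (M.mul_mem (hpow x) (hpow y)), hadd _ (hpow x) _ (hpow y)] at h4
    omega
  let T : C →* Multiplicative ℤ := MonoidHom.mk' (fun x => Multiplicative.ofAdd (θ (x ^ p)))
    (by intro a b; rw [hT a b]; rfl)
  have hT0 : ∀ x, θ (x ^ p) = 0 := by
    intro x
    have h := hC T
    have h' : T x = 1 := by rw [h]; rfl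
    exact h'
  intro m hm
  have h5 : ∀ k : ℕ, θ (m ^ k) = k * θ m := by
    intro k
    induction k with
    | zero => simp [h1]
    | succ k ih =>
      rw [pow_succ, hadd _ (M.pow_mem hm k) _ hm, ih]
      push_cast; ring
  have h6 := hT0 m
  rw [h5 p] at h6
  rcases mul_eq_zero.1 h6 with h | h
  · exact absurd (by exact_mod_cast h) hp
  · exact h

theorem exists_functional_aux {A : Type*} [AddCommGroup A] (p : ℕ) [Fact p.Prime]
    (h : ∀ x : A, p • x = 0) (n : A) (hn : n ≠ 0) : ∃ φ : A →+ ZMod p, φ n ≠ 0 := by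
  let _i : Module (ZMod p) A := AddCommGroup.zmodModule (n := p) h
  obtain ⟨φ, hφ⟩ := Module.Projective.exists_dual_ne_zero (ZMod p) hn
  exact ⟨φ.toAddMonoidHom, hφ⟩

/-- functionals on elementary abelian quotients. -/
theorem exists_functional {C : Type*} [Group C] (M : Subgroup C) [hMn : M.Normal]
    (hcomm : ∀ x y : C, x * y * x⁻¹ * y⁻¹ ∈ M) (p : ℕ) [Fact p.Prime] (hpow : ∀ x : C, x ^ p ∈ M)
    (n : C) (hn : n ∉ M) : ∃ ψ : C →* Multiplicative (ZMod p), (∀ m ∈ M, ψ m = 1) ∧ ψ n ≠ 1 := by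
  letI : CommGroup (C ⧸ M) :=
    { (inferInstance : Group (C ⧸ M)) with
      mul_comm := by
        intro a b
        induction a using QuotientGroup.induction_on with
        | H x =>
          induction b using QuotientGroup.induction_on with
          | H y =>
            rw [← QuotientGroup.mk_mul, ← QuotientGroup.mk_mul, QuotientGroup.eq]
            have := hcomm y⁻¹ x⁻¹
            have e : (x * y)⁻¹ * (y * x) = y⁻¹ * x⁻¹ * (y⁻¹)⁻¹ * (x⁻¹)⁻¹ := by group
            rw [e]; exact this }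
  obtain ⟨φ, hφ⟩ := exists_functional_aux p (A := Additive (C ⧸ M)) (by
    intro x
    obtain ⟨y, hy⟩ := QuotientGroup.mk_surjective (Additive.toMul x)
    have : (QuotientGroup.mk (y ^ p) : C ⧸ M) = 1 := (QuotientGroup.eq_one_iff _).2 (hpow y)
    rw [QuotientGroup.mk_pow, hy] at this
    exact this) (Additive.ofMul (QuotientGroup.mk n : C ⧸ M)) (by
    intro h
    exact hn ((QuotientGroup.eq_one_iff n).1 h))
  refine ⟨MonoidHom.mk' (fun x => Multiplicative.ofAdd
    (φ (Additive.ofMul (QuotientGroup.mk x : C ⧸ M)))) ?_, ?_, ?_⟩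
  · intro a b
    rw [QuotientGroup.mk_mul, ofMul_mul, map_add, ofAdd_add]
  · intro m hm
    show Multiplicative.ofAdd (φ (Additive.ofMul (QuotientGroup.mk m : C ⧸ M))) = 1
    rw [(QuotientGroup.eq_one_iff m).2 hm, ofMul_one, map_zero, ofAdd_zero]
  · intro h
    apply hφ
    exact h

end Pool.LIQuasi
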