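import Pool.Agent.LIQuasi.Prime

/-! The Hantzsche–Wendt (Promislow, Passman) group inside a product of three infinite dihedral
groups: torsion-free, metabelian, not locally indicable. -/

namespace Pool.LIQuasi

open DihedralGroup

abbrev Dinf := DihedralGroup 0
abbrev D3 := Dinf × Dinf × Dinf

def sgn : Dinf → ZMod 2
  | r _ => 0
  | sr _ => 1

def ci (i : ℤ) : ZMod 2 := Int.cast i

theorem ci_add (i j : ℤ) : ci (i + j) = ci i + ci j := Int.cast_add i j
theorem ci_sub (i j : ℤ) : ci (j - i) = ci i + ci j := by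
  have h2 : ∀ u v : ZMod 2, v - u = u + v := by decide
  rw [ci, Int.cast_sub, h2]; rfl

def par : Dinf → ZMod 2
  | r i => ci i
  | sr i => ci i

theorem sgn_mul (x y : Dinf) : sgn (x * y) = sgn x + sgn y := by
  rcases x with i | i <;> rcases y with j | j <;> simp [sgn]
  decide

theorem par_mul (x y : Dinf) : par (x * y) = par x + par y := by
  rcases x with i | i <;> rcases y with j | j
  · exact ci_add i j
  · exact ci_sub i j
  · exact ci_add i j
  · exact ci_sub i j

theorem sgn_one : sgn 1 = 0 := rfl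
theorem par_one : par 1 = 0 := by
  show ci 0 = 0
  simp [ci]

theorem sgn_inv (x : Dinf) : sgn x⁻¹ = sgn x := by
  have h := sgn_mul x x⁻¹
  rw [mul_inv_cancel, sgn_one] at h
  have : ∀ u v : ZMod 2, 0 = u + v → v = u := by decide
  exact this _ _ h

theorem par_inv (x : Dinf) : par x⁻¹ = par x := by
  have h := par_mul x x⁻¹
  rw [mul_inv_cancel, par_one] at h
  have : ∀ u v : ZMod 2, 0 = u + v → v = u := by decide
  exact this _ _ h

/-- the ambient torsion-free subgroup -/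
def HW : Subgroup D3 where
  carrier := {g | sgn g.1 + sgn g.2.1 + sgn g.2.2 = 0 ∧ par g.1 = sgn g.2.1 ∧
    par g.2.1 = sgn g.2.2 ∧ par g.2.2 = sgn g.1}
  mul_mem' := by
    rintro ⟨a, b, c⟩ ⟨a', b', c'⟩ ⟨h1, h2, h3, h4⟩ ⟨h1', h2', h3', h4'⟩
    simp only [Set.mem_ofPred_eq, Prod.mk_mul_mk, sgn_mul, par_mul] at *
    refine ⟨?_, ?_, ?_, ?_⟩
    · have e : sgn a + sgn a' + (sgn b + sgn b') + (sgn c + sgn c') =
        (sgn a + sgn b + sgn c) + (sgn a' + sgn b' + sgn c') := by ring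
      rw [e, h1, h1', add_zero]
    · rw [h2, h2']
    · rw [h3, h3']
    · rw [h4, h4']
  one_mem' := by
    simp only [Set.mem_ofPred_eq, Prod.fst_one, Prod.snd_one, sgn_one, par_one]
    decide
  inv_mem' := by
    rintro ⟨a, b, c⟩ ⟨h1, h2, h3, h4⟩
    simp only [Set.mem_ofPred_eq, Prod.inv_mk, sgn_inv, par_inv] at *
    exact ⟨h1, h2, h3, h4⟩

theorem r_pow' (i : ℤ) (n : ℕ) : (r i : Dinf) ^ n = r ((n : ℤ) * i) := by
  induction n with
  | zero => simp; rfl
  | succ n ih =>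
    rw [pow_succ, ih]
    have e : (((n + 1 : ℕ) : ℤ) * i) = (n : ℤ) * i + i := by push_cast; ring
    rw [e]
    rfl

theorem r_pow_eq_one {i : ℤ} {n : ℕ} (hn : 1 ≤ n) (h : (r i : Dinf) ^ n = 1) : i = 0 := by
  rw [r_pow'] at h
  have h1 : (r ((n : ℤ) * i) : Dinf) = r 0 := h
  have h2 : (n : ℤ) * i = 0 := by
    injection h1
  rcases mul_eq_zero.1 h2 with h3 | h3
  · omega
  · exact h3

theorem HW_tf (g : D3) (hg : g ∈ HW) (n : ℕ) (hn : 1 ≤ n) (h : g ^ n = 1) : g = 1 := by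
  obtain ⟨x, y, z⟩ := g
  obtain ⟨h1, h2, h3, h4⟩ := hg
  have hx : x ^ n = 1 := congrArg Prod.fst h
  have hy : y ^ n = 1 := congrArg (fun t => t.2.1) h
  have hz : z ^ n = 1 := congrArg (fun t => t.2.2) h
  simp only at h1 h2 h3 h4
  rcases x with i | i <;> rcases y with j | j <;> rcases z with k | k
  · have e1 := r_pow_eq_one hn hx
    have e2 := r_pow_eq_one hn hy
    have e3 := r_pow_eq_one hn hz
    subst e1; subst e2; subst e3
    rfl
  · exfalso; revert h1; simp [sgn]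
  · exfalso; revert h1; simp [sgn]
  · exfalso
    have e1 : i = 0 := r_pow_eq_one hn hx
    subst e1
    have : par (r (0 : ℤ) : Dinf) = 0 := par_one
    have e2 : (0 : ZMod 2) = 1 := by rw [← this]; exact h2
    exact absurd e2 (by decide)
  · exfalso; revert h1; simp [sgn]
  · exfalso
    have e1 : j = 0 := r_pow_eq_one hn hy
    subst e1
    have : par (r (0 : ℤ) : Dinf) = 0 := par_one
    have e2 : (0 : ZMod 2) = 1 := by rw [← this]; exact h3
    exact absurd e2 (by decide)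
  · exfalso
    have e1 : k = 0 := r_pow_eq_one hn hz
    subst e1
    have : par (r (0 : ℤ) : Dinf) = 0 := par_one
    have e2 : (0 : ZMod 2) = 1 := by rw [← this]; exact h4
    exact absurd e2 (by decide)
  · exfalso; revert h1; simp [sgn]; decide

def ga : D3 := (r (1 : ℤ), sr (1 : ℤ), sr (0 : ℤ))
def gb : D3 := (sr (0 : ℤ), r (1 : ℤ), sr (1 : ℤ))

/-- the Hantzsche–Wendt group. -/
def P : Subgroup D3 := Subgroup.closure {ga, gb}

theorem P_le : P ≤ HW := by
  rw [P, Subgroup.closure_le]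
  intro g hg
  rcases hg with rfl | rfl
  · refine ⟨?_, ?_, ?_, ?_⟩ <;> simp [ga, sgn, par, ci] <;> decide
  · refine ⟨?_, ?_, ?_, ?_⟩ <;> simp [gb, sgn, par, ci] <;> decide

theorem P_tf : TF P := by
  intro g n hn h
  apply Subtype.ext
  apply HW_tf _ (P_le g.2) n hn
  exact congrArg Subtype.val h

theorem rel1 : gb * (ga * ga) * gb⁻¹ = (ga * ga)⁻¹ := by decide
theorem rel2 : ga * (gb * gb) * ga⁻¹ = (gb * gb)⁻¹ := by decide

theorem P_noZ : NoZ P := by
  have ha : ga ∈ P := Subgroup.subset_closure (by simp)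
  have hb : gb ∈ P := Subgroup.subset_closure (by simp)
  intro f
  have key : ∀ (x y : P), y * (x * x) * y⁻¹ = (x * x)⁻¹ → f x = 1 := by
    intro x y h
    have h1 := congrArg f h
    rw [map_mul, map_mul, map_inv, map_inv, mul_inv_cancel_comm, map_mul] at h1
    have h2 := congrArg Multiplicative.toAdd h1
    rw [toAdd_inv, toAdd_mul] at h2
    apply Multiplicative.toAdd.injective
    show Multiplicative.toAdd (f x) = 0
    omega
  have h1 : f ⟨ga, ha⟩ = 1 := key ⟨ga, ha⟩ ⟨gb, hb⟩ (Subtype.ext rel1)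
  have h2 : f ⟨gb, hb⟩ = 1 := key ⟨gb, hb⟩ ⟨ga, ha⟩ (Subtype.ext rel2)
  ext ⟨x, hx⟩
  have : f ⟨x, hx⟩ = 1 := by
    unfold P at hx
    induction hx using Subgroup.closure_induction with
    | mem z hz =>
      rcases hz with rfl | rfl
      · exact h1
      · exact h2
    | one => exact map_one f
    | mul a b ha' hb' iha ihb =>
      have : (⟨a * b, P.mul_mem ha' hb'⟩ : P) = ⟨a, ha'⟩ * ⟨b, hb'⟩ := rfl
      rw [this, map_mul, iha, ihb, one_mul]
    | inv a ha' iha =>
      have : (⟨a⁻¹, P.inv_mem ha'⟩ : P) = ⟨a, ha'⟩⁻¹ := rfl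
      rw [this, map_inv, iha, inv_one]
  rw [this]
  rfl

theorem P_not_LI : ¬ LI P := by
  have hfg : Group.FG P := by
    rw [Group.fg_iff_subgroup_fg]
    exact ⟨{ga, gb}, by simp [P]⟩
  have hnt : Nontrivial P := by
    rw [Subgroup.nontrivial_iff_exists_ne_one]
    exact ⟨ga, Subgroup.subset_closure (by simp), by decide⟩
  exact not_LI_of_noZ P_noZ

def sg3 : P →* Multiplicative (ZMod 2 × ZMod 2 × ZMod 2) :=
  MonoidHom.mk' (fun g => Multiplicative.ofAdd (sgn g.1.1, sgn g.1.2.1, sgn g.1.2.2)) (by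
    intro a b
    show Multiplicative.ofAdd (sgn (a.1.1 * b.1.1), sgn (a.1.2.1 * b.1.2.1), sgn (a.1.2.2 * b.1.2.2)) = _
    rw [sgn_mul, sgn_mul, sgn_mul]
    rfl)

theorem comm_of_sgn {x y : Dinf} (hx : sgn x = 0) (hy : sgn y = 0) : x * y = y * x := by
  rcases x with i | i
  · rcases y with j | j
    · show (r (i + j) : Dinf) = r (j + i)
      rw [add_comm]
    · exact absurd hy (by simp [sgn])
  · exact absurd hx (by simp [sgn])

theorem P_metabelian : derivedSeries P 2 = ⊥ := by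
  have h1 : derivedSeries P 1 ≤ sg3.ker := by
    rw [derivedSeries_one]
    exact Abelianization.commutator_subset_ker sg3
  rw [eq_bot_iff]
  show ⁅derivedSeries P 1, derivedSeries P 1⁆ ≤ ⊥
  rw [Subgroup.commutator_le]
  intro a ha b hb
  have ha' := MonoidHom.mem_ker.1 (h1 ha)
  have hb' := MonoidHom.mem_ker.1 (h1 hb)
  have ha2 : (sgn a.1.1, sgn a.1.2.1, sgn a.1.2.2) = (0, 0, 0) := ha'
  have hb2 : (sgn b.1.1, sgn b.1.2.1, sgn b.1.2.2) = (0, 0, 0) := hb'
  simp only [Prod.mk.injEq] at ha2 hb2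
  rw [Subgroup.mem_bot, commutatorElement_eq_one_iff_mul_comm]
  apply Subtype.ext
  show (a.1 * b.1 : D3) = b.1 * a.1
  refine Prod.ext ?_ (Prod.ext ?_ ?_)
  · exact comm_of_sgn ha2.1 hb2.1
  · exact comm_of_sgn ha2.2.1 hb2.2.1
  · exact comm_of_sgn ha2.2.2 hb2.2.2

end Pool.LIQuasi
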