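import Pool.Agent.LIQuasi.Psi

namespace Pool.LIQuasi

section

variable {C : Type} [Group C] (N : Subgroup C) (p : ℕ) [hp : Fact p.Prime]
  (χ ψ : C →* Multiplicative (ZMod p)) (d : ℕ)

theorem exists_pow_eq {u : Multiplicative (ZMod p)} (hu : u ≠ 1) (s : Multiplicative (ZMod p)) :
    ∃ k : ℕ, u ^ k = s := by
  have hu' : Multiplicative.toAdd u ≠ 0 := hu
  refine ⟨(Multiplicative.toAdd s / Multiplicative.toAdd u : ZMod p).val, ?_⟩
  apply Multiplicative.toAdd.injective
  rw [toAdd_pow, nsmul_eq_mul, ZMod.natCast_zmod_val, div_mul_cancel₀ _ hu']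

theorem joint (hχ : ∀ x, χ x = 1 ↔ x ∈ N) (hg : ∃ g : C, g ∉ N) (hψ : ∃ n ∈ N, ψ n ≠ 1)
    (s t : Multiplicative (ZMod p)) : ∃ c, χ c = s ∧ ψ c = t := by
  obtain ⟨g, hg⟩ := hg
  obtain ⟨n, hn, hn'⟩ := hψ
  have hg' : χ g ≠ 1 := fun h => hg ((hχ g).1 h)
  obtain ⟨k, hk⟩ := exists_pow_eq p hg' s
  obtain ⟨l, hl⟩ := exists_pow_eq p hn' (t * (ψ (g ^ k))⁻¹)
  refine ⟨n ^ l * g ^ k, ?_, ?_⟩
  · rw [map_mul, map_pow, (hχ n).2 hn, one_pow, one_mul, map_pow, hk]
  · rw [map_mul, map_pow, hl]; group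

/-- pairs of jointly surjective functionals -/
abbrev Idx : Type := {ab : ((Fin d → ZMod p) →ₗ[ZMod p] ZMod p) × ((Fin d → ZMod p) →ₗ[ZMod p] ZMod p) //
  ∀ s t : ZMod p, ∃ e, ab.1 e = s ∧ ab.2 e = t}

instance : Finite (Idx p d) := by
  have h1 : Finite ((Fin d → ZMod p) →ₗ[ZMod p] ZMod p) := DFunLike.finite _
  have h2 : Finite (((Fin d → ZMod p) →ₗ[ZMod p] ZMod p) × ((Fin d → ZMod p) →ₗ[ZMod p] ZMod p)) :=
    inferInstance
  exact Subtype.finite

def Wit (e : Fin d → ZMod p) (c : Idx p d → C) : Prop :=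
  ∀ i, χ (c i) = Multiplicative.ofAdd (i.1.1 e) ∧ ψ (c i) = Multiplicative.ofAdd (i.1.2 e)

variable {χ ψ p d}

theorem Wit.mul {e e' : Fin d → ZMod p} {c c' : Idx p d → C} (h : Wit p χ ψ d e c)
    (h' : Wit p χ ψ d e' c') : Wit p χ ψ d (e + e') (c * c') := by
  intro i
  rw [Pi.mul_apply, map_mul, map_mul, (h i).1, (h' i).1, (h i).2, (h' i).2, LinearMap.map_add, LinearMap.map_add]
  exact ⟨rfl, rfl⟩

theorem Wit.inv {e : Fin d → ZMod p} {c : Idx p d → C} (h : Wit p χ ψ d e c) :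
    Wit p χ ψ d (-e) c⁻¹ := by
  intro i
  rw [Pi.inv_apply, map_inv, map_inv, (h i).1, (h i).2, LinearMap.map_neg, LinearMap.map_neg]
  exact ⟨rfl, rfl⟩

theorem Wit.one : Wit p χ ψ d 0 (1 : Idx p d → C) := by
  intro i
  rw [Pi.one_apply, map_one, map_one, LinearMap.map_zero, LinearMap.map_zero]
  exact ⟨rfl, rfl⟩

variable (χ ψ p d)

/-- the group `H_d`. -/
def Hd : Subgroup (Idx p d → C) where
  carrier := {c | ∃ e, Wit p χ ψ d e c}
  mul_mem' := by
    rintro a b ⟨e, he⟩ ⟨e', he'⟩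
    exact ⟨_, he.mul he'⟩
  one_mem' := ⟨0, Wit.one⟩
  inv_mem' := by
    rintro a ⟨e, he⟩
    exact ⟨_, he.inv⟩

/-- subgroups of `H_d` with less than `d` generators are locally indicable. -/
theorem Hd_small (hχ : ∀ x, χ x = 1 ↔ x ∈ N) (hN : LI N) (m : ℕ) (hm : m < d)
    (x : Fin m → Hd p χ ψ d) : LI (Subgroup.closure (Set.range x)) := by
  classical
  choose e he using fun j => (x j).2
  let EL : Submodule (ZMod p) (Fin d → ZMod p) := Submodule.span (ZMod p) (Set.range e)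
  have hEL : EL < ⊤ := by
    rw [lt_top_iff_ne_top]
    intro h
    have h1 : Module.finrank (ZMod p) EL ≤ m := by
      have := finrank_range_le_card (R := ZMod p) e
      simpa [Set.finrank] using this
    rw [h, finrank_top] at h1
    simp at h1
    omega
  have hwit : ∀ y ∈ Subgroup.closure (Set.range x), ∃ v ∈ EL, Wit p χ ψ d v (y : Idx p d → C) := by
    intro y hy
    induction hy using Subgroup.closure_induction with
    | mem z hz =>
      obtain ⟨j, rfl⟩ := hz
      exact ⟨e j, Submodule.subset_span ⟨j, rfl⟩, he j⟩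
    | one => exact ⟨0, EL.zero_mem, Wit.one⟩
    | mul a b _ _ iha ihb =>
      obtain ⟨v, hv, hv'⟩ := iha
      obtain ⟨w, hw, hw'⟩ := ihb
      exact ⟨v + w, EL.add_mem hv hw, hv'.mul hw'⟩
    | inv a _ iha =>
      obtain ⟨v, hv, hv'⟩ := iha
      exact ⟨-v, EL.neg_mem hv, hv'.inv⟩
  apply LI.of_local
  intro K _ hKne
  let ev : Idx p d → (Subgroup.closure (Set.range x)) →* C := fun i =>
    (Pi.evalMonoidHom (fun _ : Idx p d => C) i).comp
      ((Hd p χ ψ d).subtype.comp (Subgroup.closure (Set.range x)).subtype)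
  have hev : ∀ i y, ev i y = ((y : Hd p χ ψ d) : Idx p d → C) i := fun i y => rfl
  suffices hs : ∃ i, (∀ y ∈ K, χ (ev i y) = 1) ∧ ∃ y ∈ K, ev i y ≠ 1 by
    obtain ⟨i, h1, y, hy, hy1⟩ := hs
    refine ⟨C, inferInstance, ev i, N, hN, ?_, ?_⟩
    · rintro _ ⟨z, hz, rfl⟩
      exact (hχ _).1 (h1 z hz)
    · intro h
      apply hy1
      have : ev i y ∈ K.map (ev i) := ⟨y, hy, rfl⟩
      rw [h, Subgroup.mem_bot] at this
      exact this
  by_cases hcase : ∃ y ∈ K, ∃ v ∈ EL, v ≠ 0 ∧ Wit p χ ψ d v ((y : Hd p χ ψ d) : Idx p d → C)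
  · obtain ⟨y, hy, v, hv, hv0, hvw⟩ := hcase
    obtain ⟨a, ha0, hale⟩ := Submodule.exists_le_ker_of_lt_top EL hEL
    obtain ⟨b, hb⟩ := Module.Projective.exists_dual_ne_zero (ZMod p) hv0
    obtain ⟨w, hw⟩ : ∃ w, a w ≠ 0 := by
      by_contra hcon
      push Not at hcon
      exact ha0 (LinearMap.ext hcon)
    have hav : a v = 0 := LinearMap.mem_ker.1 (hale hv)
    have hjs : ∀ s t : ZMod p, ∃ e, a e = s ∧ b e = t := by
      intro s t
      refine ⟨(s / a w) • w + ((t - (s / a w) * b w) / b v) • v, ?_, ?_⟩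
      · rw [map_add, map_smul, map_smul, hav, smul_eq_mul, smul_eq_mul, mul_zero, add_zero,
          div_mul_cancel₀ _ hw]
      · rw [map_add, map_smul, map_smul, smul_eq_mul, smul_eq_mul, div_mul_cancel₀ _ hb]
        ring
    refine ⟨⟨(a, b), hjs⟩, ?_, y, hy, ?_⟩
    · intro z hz
      obtain ⟨u, hu, hu'⟩ := hwit z z.2
      rw [hev, (hu' _).1]
      have : a u = 0 := LinearMap.mem_ker.1 (hale hu)
      show Multiplicative.ofAdd (a u) = 1
      rw [this]; rfl
    · intro h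
      have h1 := (hvw ⟨(a, b), hjs⟩).2
      rw [← hev, h, map_one] at h1
      apply hb
      have h2 : Multiplicative.ofAdd (b v) = 1 := h1.symm
      exact h2
  · push Not at hcase
    obtain ⟨y, hy, hy1⟩ : ∃ y ∈ K, y ≠ 1 := by
      by_contra hcon
      push Not at hcon
      exact hKne ((Subgroup.eq_bot_iff_forall _).2 hcon)
    obtain ⟨i, hi⟩ : ∃ i, ((y : Hd p χ ψ d) : Idx p d → C) i ≠ 1 := by
      by_contra hcon
      push Not at hcon
      apply hy1
      apply Subtype.ext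
      apply Subtype.ext
      funext i
      exact hcon i
    refine ⟨i, ?_, y, hy, hi⟩
    intro z hz
    obtain ⟨u, hu, hu'⟩ := hwit z z.2
    have hu0 : u = 0 := by
      by_contra hne
      exact hcase z hz u hu hne hu'
    rw [hev, (hu' i).1, hu0, LinearMap.map_zero]
    rfl

/-- finite generation of `H_d`. -/
theorem Hd_fg [Group.FG C] : Group.FG (Hd p χ ψ d) := by
  let F : (Idx p d → C) →* (Idx p d → Multiplicative (ZMod p) × Multiplicative (ZMod p)) :=
    { toFun := fun c i => (χ (c i), ψ (c i))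
      map_one' := by funext i; simp
      map_mul' := by intro a b; funext i; simp }
  have hle : F.ker ≤ Hd p χ ψ d := by
    intro c hc
    refine ⟨0, fun i => ?_⟩
    have h1 := congrFun (MonoidHom.mem_ker.1 hc) i
    have h2 : (χ (c i), ψ (c i)) = 1 := h1
    rw [Prod.ext_iff] at h2
    rw [LinearMap.map_zero, LinearMap.map_zero]
    exact h2
  have hfi : F.ker.FiniteIndex := by
    have : Finite F.range := inferInstance
    infer_instance
  have : (Hd p χ ψ d).FiniteIndex := Subgroup.finiteIndex_of_le hle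
  infer_instance

theorem Hd_noZ (hC : NoZ C)
    (hj : ∀ s t : Multiplicative (ZMod p), ∃ c, χ c = s ∧ ψ c = t) : NoZ (Hd p χ ψ d) := by
  classical
  intro θ
  let M : Subgroup C := χ.ker ⊓ ψ.ker
  have hMmem : ∀ x, x ∈ M ↔ χ x = 1 ∧ ψ x = 1 := fun x => Iff.rfl
  have hMn : M.Normal := by
    constructor
    rintro n hn c
    rw [hMmem] at hn ⊢
    simp [hn.1, hn.2]
  have hMcomm : ∀ x y : C, x * y * x⁻¹ * y⁻¹ ∈ M := by
    intro x y
    rw [hMmem]
    constructor
    · rw [map_mul, map_mul, map_mul, map_inv, map_inv, mul_right_comm (χ x) (χ y), mul_inv_cancel,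
        one_mul, mul_inv_cancel]
    · rw [map_mul, map_mul, map_mul, map_inv, map_inv, mul_right_comm (ψ x) (ψ y), mul_inv_cancel,
        one_mul, mul_inv_cancel]
  have hpz : ∀ u : Multiplicative (ZMod p), u ^ p = 1 := by
    intro u
    apply Multiplicative.toAdd.injective
    rw [toAdd_pow, nsmul_eq_mul, CharP.cast_eq_zero, zero_mul]; rfl
  have hMpow : ∀ x : C, x ^ p ∈ M := by
    intro x
    rw [hMmem, map_pow, map_pow]
    exact ⟨hpz _, hpz _⟩
  have hsingle : ∀ i : Idx p d, ∀ m ∈ M, (Pi.mulSingle i m : Idx p d → C) ∈ Hd p χ ψ d := by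
    intro i m hm
    refine ⟨0, fun j => ?_⟩
    rw [LinearMap.map_zero, LinearMap.map_zero]
    by_cases hji : j = i
    · subst hji
      rw [Pi.mulSingle_eq_same]
      exact hm
    · rw [Pi.mulSingle_eq_of_ne hji, map_one, map_one]
      exact ⟨rfl, rfl⟩
  -- θ vanishes on the coordinates
  have hzero : ∀ i : Idx p d, ∀ m (hm : m ∈ M), θ ⟨Pi.mulSingle i m, hsingle i m hm⟩ = 1 := by
    intro i
    let θi : C → ℤ := fun c => if h : c ∈ M then Multiplicative.toAdd (θ ⟨Pi.mulSingle i c, hsingle i c h⟩) else 0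
    have hθi : ∀ m (hm : m ∈ M), θi m = Multiplicative.toAdd (θ ⟨Pi.mulSingle i m, hsingle i m hm⟩) := by
      intro m hm
      simp only [θi, dif_pos hm]
    have hadd : ∀ x ∈ M, ∀ y ∈ M, θi (x * y) = θi x + θi y := by
      intro x hx y hy
      rw [hθi x hx, hθi y hy, hθi _ (M.mul_mem hx hy), ← toAdd_mul, ← map_mul]
      congr 2
      apply Subtype.ext
      show (Pi.mulSingle i (x * y) : Idx p d → C) = Pi.mulSingle i x * Pi.mulSingle i y
      exact Pi.mulSingle_mul (f := fun _ : Idx p d => C) i x y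
    have hinv : ∀ c : C, ∀ m ∈ M, θi (c * m * c⁻¹) = θi m := by
      intro c m hm
      obtain ⟨e, he1, he2⟩ := i.2 (Multiplicative.toAdd (χ c)) (Multiplicative.toAdd (ψ c))
      choose cj hcj using fun j : Idx p d => hj (Multiplicative.ofAdd (j.1.1 e)) (Multiplicative.ofAdd (j.1.2 e))
      let h : Idx p d → C := Function.update cj i c
      have hh : h ∈ Hd p χ ψ d := by
        refine ⟨e, fun j => ?_⟩
        by_cases hji : j = i
        · subst hji
          simp only [h, Function.update_self]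
          rw [he1, he2]
          exact ⟨rfl, rfl⟩
        · simp only [h, Function.update_of_ne hji]
          exact hcj j
      have hconj : (⟨Pi.mulSingle i (c * m * c⁻¹), hsingle i _ (hMn.conj_mem m hm c)⟩ : Hd p χ ψ d)
          = ⟨h, hh⟩ * ⟨Pi.mulSingle i m, hsingle i m hm⟩ * ⟨h, hh⟩⁻¹ := by
        apply Subtype.ext
        show (Pi.mulSingle i (c * m * c⁻¹) : Idx p d → C) = h * Pi.mulSingle i m * h⁻¹
        funext j
        by_cases hji : j = i
        · subst hji
          simp [h]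
        · simp [h, Pi.mulSingle_eq_of_ne hji]
      rw [hθi _ (hMn.conj_mem m hm c), hθi m hm, hconj]
      congr 1
      rw [map_mul, map_mul, map_inv, mul_inv_cancel_comm]
    intro m hm
    have := invariant_zero hC M hMcomm p hp.out.ne_zero hMpow θi hadd hinv m hm
    rw [hθi m hm] at this
    exact this
  have hzero' : ∀ h : Hd p χ ψ d, (∀ i, (h : Idx p d → C) i ∈ M) → θ h = 1 := by
    intro h hM
    have hmem : (h : Idx p d → C) ∈ (θ.ker).map (Hd p χ ψ d).subtype := by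
      apply Subgroup.pi_mem_of_mulSingle_mem
      intro i
      exact ⟨⟨Pi.mulSingle i ((h : Idx p d → C) i), hsingle i _ (hM i)⟩, hzero i _ (hM i), rfl⟩
    obtain ⟨z, hz, hzh⟩ := hmem
    have : z = h := Subtype.ext hzh
    rw [← this]
    exact hz
  ext h
  have h1 : θ (h ^ p) = 1 := by
    apply hzero'
    intro i
    have : ((h ^ p : Hd p χ ψ d) : Idx p d → C) i = ((h : Idx p d → C) i) ^ p := rfl
    rw [this]
    exact hMpow _
  rw [map_pow] at h1
  have h2 : (p : ℤ) * Multiplicative.toAdd (θ h) = 0 := by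
    have := congrArg Multiplicative.toAdd h1
    rw [toAdd_pow, nsmul_eq_mul] at this
    exact this
  rcases mul_eq_zero.1 h2 with h3 | h3
  · exact absurd (by exact_mod_cast h3) hp.out.ne_zero
  · exact h3

theorem Hd_not_LI [Group.FG C] (hC : NoZ C) (hd : 2 ≤ d)
    (hj : ∀ s t : Multiplicative (ZMod p), ∃ c, χ c = s ∧ ψ c = t) : ¬ LI (Hd p χ ψ d) := by
  intro hLI
  have hfg : (⊤ : Subgroup (Hd p χ ψ d)).FG := by
    have := Hd_fg p χ ψ d
    exact Group.fg_def.1 this
  have hne : (⊤ : Subgroup (Hd p χ ψ d)) ≠ ⊥ := by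
    intro hbot
    -- the vector with coordinate 0 equal to one
    let e : Fin d → ZMod p := fun j => if (j : ℕ) = 0 then 1 else 0
    choose cj hcj using fun j : Idx p d => hj (Multiplicative.ofAdd (j.1.1 e)) (Multiplicative.ofAdd (j.1.2 e))
    have hmem : cj ∈ Hd p χ ψ d := ⟨e, hcj⟩
    let a : (Fin d → ZMod p) →ₗ[ZMod p] ZMod p := LinearMap.proj ⟨0, by omega⟩
    let b : (Fin d → ZMod p) →ₗ[ZMod p] ZMod p := LinearMap.proj ⟨1, by omega⟩
    have hab : ∀ s t : ZMod p, ∃ e, a e = s ∧ b e = t := by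
      intro s t
      refine ⟨fun j => if (j : ℕ) = 0 then s else t, ?_, ?_⟩
      · simp [a]
      · simp [b]
    have h1 : (⟨cj, hmem⟩ : Hd p χ ψ d) ∈ (⊤ : Subgroup (Hd p χ ψ d)) := trivial
    rw [hbot, Subgroup.mem_bot] at h1
    have h2 : cj = 1 := congrArg Subtype.val h1
    have h3 := (hcj ⟨(a, b), hab⟩).1
    rw [h2, Pi.one_apply, map_one] at h3
    have h4 : (0 : ZMod p) = a e := h3
    have h5 : a e = 1 := by simp [a, e]
    rw [h5] at h4
    exact zero_ne_one h4
  obtain ⟨f, hf⟩ := hLI ⊤ hfg hne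
  have hz := Hd_noZ p χ ψ d hC hj (f.comp (Subgroup.topEquiv.symm.toMonoidHom))
  obtain ⟨y, hy⟩ := hf (Multiplicative.ofAdd 1)
  have h1 := DFunLike.congr_fun hz (Subgroup.topEquiv y)
  have h2 : f (Subgroup.topEquiv.symm (Subgroup.topEquiv y)) = 1 := h1
  rw [MulEquiv.symm_apply_apply, hy] at h2
  have h3 : (1 : ℤ) = 0 := h2
  exact one_ne_zero h3

end

end Pool.LIQuasi
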