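import Pool.Agent.LIQuasi.Prime

namespace Pool.LIQuasi

/-- Key construction. -/
theorem key {G : Type} [Group G] (htf : TF G) (hG : ¬ LI G) (hl : ∃ l, LI (derivedSeries G l))
    (m : ℕ) : ∃ (ι : Type) (_ : Finite ι) (H : Type) (_ : Group H) (f : H →* (ι → G)),
      Function.Injective f ∧ Group.FG H ∧ ¬ LI H ∧
      ∀ k, k ≤ m → ∀ x : Fin k → H, LI (Subgroup.closure (Set.range x)) := by
  obtain ⟨l, hl⟩ := hl
  obtain ⟨C, iC, f0, N, p, hf0, hCfg, hC, hNn, hN, hp, hidx⟩ := primeExt_of_derived hG l hl
  have hfact : Fact p.Prime := ⟨hp⟩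
  have hCtf : TF C := by
    intro c n hn hc
    apply hf0
    rw [map_one]
    apply htf (f0 c) n hn
    rw [← map_pow, hc, map_one]
  have hfi : N.FiniteIndex := ⟨by rw [hidx]; exact hp.ne_zero⟩
  have hNfg : N.FG := by
    rw [← Group.fg_iff_subgroup_fg]
    exact Subgroup.fg_of_index_ne_zero N
  have hNtop : N ≠ ⊤ := by
    intro h
    rw [h, Subgroup.index_top] at hidx
    exact hp.one_lt.ne hidx
  have hNne : N ≠ ⊥ := by
    intro h
    apply hNtop
    rw [h, Subgroup.index_bot] at hidx
    have hall : ∀ x : C, x = 1 := by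
      intro x
      apply hCtf x p hp.one_lt.le
      rw [← hidx]
      exact pow_card_eq_one'
    rw [eq_top_iff]
    intro x _
    rw [hall x]
    exact N.one_mem
  obtain ⟨χ, ψ, hχ, hψ⟩ := exists_chi_psi N p hC hidx hNfg hNne hN
  have hg : ∃ g : C, g ∉ N := by
    by_contra hcon
    push Not at hcon
    exact hNtop (eq_top_iff.2 fun x _ => hcon x)
  have hj := joint N p χ ψ hχ hg hψ
  refine ⟨Idx p (m + 2), inferInstance, Hd p χ ψ (m + 2), inferInstance,
    (MonoidHom.compLeft f0 (Idx p (m + 2))).comp (Hd p χ ψ (m + 2)).subtype, ?_,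
    Hd_fg p χ ψ (m + 2), Hd_not_LI p χ ψ (m + 2) hC (by omega) hj, ?_⟩
  · intro a b hab
    apply Subtype.ext
    funext i
    apply hf0
    exact congrFun hab i
  · intro k hk x
    exact Hd_small N p χ ψ (m + 2) hχ hN k (by omega) x

theorem lift_hom {n : ℕ} {A B : Type} [Group A] [Group B] (f : A →* B) (x : Fin n → A)
    (u : FreeGroup (Fin n)) : FreeGroup.lift (fun j => f (x j)) u = f (FreeGroup.lift x u) := by
  have h : FreeGroup.lift (fun j => f (x j)) = f.comp (FreeGroup.lift x) := by
    ext j
    simp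
  rw [h]; rfl

/-- quasi-identities pass to groups embeddable into powers. -/
theorem QId.Holds.power {q : QId} {G H ι : Type} [Group G] [Group H] (f : H →* (ι → G))
    (hf : Function.Injective f) (h : q.Holds G) : q.Holds H := by
  intro x hx
  apply hf
  rw [map_one]
  funext i
  let fi : H →* G := (Pi.evalMonoidHom (fun _ : ι => G) i).comp f
  have h1 := h (fun j => fi (x j)) (by
    intro u hu
    rw [lift_hom fi x u, hx u hu, map_one])
  rw [lift_hom fi x] at h1
  exact h1

/-- classes of groups, closed under (groups embeddable into) finite direct powers. -/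
def PowerClosed (X : (G : Type) → [Group G] → Prop) : Prop :=
  ∀ (G H ι : Type) [Group G] [Group H] [Finite ι] (f : H →* (ι → G)),
    Function.Injective f → X G → X H

/-- `S` defines the locally indicable groups within `X`. -/
def Defines (S : Set QId) (X : (G : Type) → [Group G] → Prop) : Prop :=
  ∀ (G : Type) [Group G], X G → (LI G ↔ ∀ q ∈ S, q.Holds G)

/-- no member of `S` follows, within `X`, from the others. -/
def Independent (S : Set QId) (X : (G : Type) → [Group G] → Prop) : Prop :=
  ∀ q ∈ S, ∃ (G : Type) (_ : Group G), X G ∧ (∀ r ∈ S, r ≠ q → r.Holds G) ∧ ¬ q.Holds G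

theorem Subgroup_closed {X : (G : Type) → [Group G] → Prop} (hX : PowerClosed X)
    {G H : Type} [Group G] [Group H] (f : H →* G) (hf : Function.Injective f) (h : X G) : X H := by
  refine hX G H Unit ⟨⟨fun h _ => f h, by funext _; simp⟩, ?_⟩ ?_ h
  · intro a b
    funext _
    simp
  · intro a b hab
    apply hf
    exact congrFun hab ()

/-- A group with an LI term in the derived series violates members of `S` with arbitrarily many
variables. -/
theorem fail_large (X : (G : Type) → [Group G] → Prop) (hX : PowerClosed X) (S : Set QId)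
    (hS : Defines S X) (G : Type) [Group G] (hXG : X G) (htf : TF G) (hG : ¬ LI G)
    (hl : ∃ l, LI (derivedSeries G l)) (m : ℕ) : ∃ q ∈ S, m < q.vars ∧ ¬ q.Holds G := by
  obtain ⟨ι, hι, H, iH, f, hf, -, hH, hsmall⟩ := key htf hG hl m
  have hXH : X H := hX G H ι f hf hXG
  have h1 := (hS H hXH).not.1 hH
  push Not at h1
  obtain ⟨q, hq, hqH⟩ := h1
  refine ⟨q, hq, ?_, fun h => hqH (h.power f hf)⟩
  by_contra hle
  push Not at hle
  apply hqH
  intro x hx
  have hL := hsmall q.vars hle x
  have hXL : X (Subgroup.closure (Set.range x)) :=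
    Subgroup_closed hX (Subgroup.subtype _) (Subgroup.subtype_injective _) hXH
  have hqL := (hS _ hXL).1 hL q hq
  let x' : Fin q.vars → Subgroup.closure (Set.range x) :=
    fun j => ⟨x j, Subgroup.subset_closure ⟨j, rfl⟩⟩
  have e : ∀ u, FreeGroup.lift x u = (FreeGroup.lift x' u : Subgroup.closure (Set.range x)) := by
    intro u
    exact lift_hom (Subgroup.closure (Set.range x)).subtype x' u
  rw [e]
  rw [hqL x' (by
    intro u hu
    apply Subtype.ext
    rw [← e, hx u hu]; rfl)]
  rfl

end Pool.LIQuasi
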