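import Pool.Agent.LIQuasi.Hd

open DirectSum

namespace Pool.LIQuasi

/-- a finitely generated abelian group without nonzero homomorphisms to `ℤ` is finite. -/
theorem finite_of_noZ_add (A : Type) [AddCommGroup A] [AddGroup.FG A] (h : ∀ f : A →+ ℤ, f = 0) :
    Finite A := by
  obtain ⟨n, ι, fι, p, hp, e, ⟨f⟩⟩ := AddCommGroup.equiv_free_prod_directSum_zmod A
  rcases n with - | n
  · have hne : ∀ i : ι, NeZero (p i ^ e i) := fun i => ⟨pow_ne_zero _ (hp i).ne_zero⟩
    have : Finite (⨁ i : ι, ZMod (p i ^ e i)) :=
      Finite.of_equiv _ DFinsupp.equivFunOnFintype.symm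
    have : Finite (Fin 0 →₀ ℤ) := Finite.of_subsingleton
    exact Finite.of_equiv _ f.symm.toEquiv
  · exfalso
    let g : A →+ ℤ := (Finsupp.applyAddHom (0 : Fin (n + 1))).comp
      ((AddMonoidHom.fst (Fin (n + 1) →₀ ℤ) (⨁ i : ι, ZMod (p i ^ e i))).comp f.toAddMonoidHom)
    have h0 := DFunLike.congr_fun (h g) (f.symm (Finsupp.single 0 1, 0))
    simp [g] at h0

/-- `C/D` is finite if `D` contains the commutators. -/
theorem finite_quot {C : Type} [Group C] [Group.FG C] (hC : NoZ C) (D : Subgroup C) [hDn : D.Normal]
    (hcomm : ∀ x y : C, x * y * x⁻¹ * y⁻¹ ∈ D) : Finite (C ⧸ D) := by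
  let _i : CommGroup (C ⧸ D) :=
    { (inferInstance : Group (C ⧸ D)) with
      mul_comm := by
        intro a b
        induction a using QuotientGroup.induction_on with
        | H x =>
          induction b using QuotientGroup.induction_on with
          | H y =>
            rw [← QuotientGroup.mk_mul, ← QuotientGroup.mk_mul, QuotientGroup.eq]
            have := hcomm y⁻¹ x⁻¹
            have e : (x * y)⁻¹ * (y * x) = y⁻¹ * x⁻¹ * (y⁻¹)⁻¹ * (x⁻¹)⁻¹ := by group
            rw [e]; exact this }
  have hfg : Group.FG (C ⧸ D) := QuotientGroup.fg D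
  have hfg' : AddGroup.FG (Additive (C ⧸ D)) := by
    exact (GroupFG.iff_add_fg).1 hfg
  have : Finite (Additive (C ⧸ D)) := by
    apply finite_of_noZ_add
    intro f
    have h1 := hC ((AddMonoidHom.toMultiplicativeRight f).comp (QuotientGroup.mk' D))
    refine AddMonoidHom.ext fun x => ?_
    obtain ⟨y, hy⟩ := QuotientGroup.mk_surjective (Additive.toMul x)
    have h2 := DFunLike.congr_fun h1 y
    have h3 : f (Additive.ofMul (QuotientGroup.mk y : C ⧸ D)) = 0 := h2
    rw [hy] at h3
    exact h3
  exact Finite.of_equiv _ Additive.toMul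

theorem LI.of_top {G : Type} [Group G] (h : LI (⊤ : Subgroup G)) : LI G := by
  let e : G →* (⊤ : Subgroup G) := (Subgroup.topEquiv (G := G)).symm.toMonoidHom
  have he : Function.Injective e := (Subgroup.topEquiv (G := G)).symm.injective
  exact h.of_injective e he

theorem LI.comap {G H : Type} [Group G] [Group H] (f : H →* G) (hf : Function.Injective f)
    (D : Subgroup G) (h : LI D) : LI (D.comap f) := by
  refine h.of_injective (f.subgroupComap D) ?_
  intro a b hab
  apply Subtype.ext
  apply hf
  have h1 : ((f.subgroupComap D a : D) : G) = (f.subgroupComap D b : D) := congrArg Subtype.val hab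
  exact h1

/-- a group that is not LI has a nontrivial f.g. subgroup without homomorphisms to `ℤ`. -/
theorem exists_bad {G : Type} [Group G] (h : ¬ LI G) :
    ∃ K : Subgroup G, Group.FG K ∧ Nontrivial K ∧ NoZ K := by
  unfold LI at h
  push Not at h
  obtain ⟨K, hK, hne, hf⟩ := h
  refine ⟨K, (Group.fg_iff_subgroup_fg K).2 hK, (Subgroup.nontrivial_iff_ne_bot K).2 hne, ?_⟩
  intro f
  by_contra hf1
  obtain ⟨g, hg⟩ := exists_surj f hf1
  exact hf g hg

/-- an LI group that is f.g. and nontrivial has a homomorphism onto `ℤ`. -/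
theorem not_LI_of_noZ {C : Type} [Group C] [hfg : Group.FG C] [hnt : Nontrivial C] (hC : NoZ C) :
    ¬ LI C := by
  intro hLI
  have hne : (⊤ : Subgroup C) ≠ ⊥ := by
    intro h
    obtain ⟨x, hx⟩ := exists_ne (1 : C)
    apply hx
    have : x ∈ (⊤ : Subgroup C) := trivial
    rw [h, Subgroup.mem_bot] at this
    exact this
  obtain ⟨f, hf⟩ := hLI ⊤ (Group.fg_def.1 hfg) hne
  have hz := hC (f.comp (Subgroup.topEquiv.symm.toMonoidHom))
  obtain ⟨y, hy⟩ := hf (Multiplicative.ofAdd 1)
  have h1 := DFunLike.congr_fun hz (Subgroup.topEquiv y)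
  have h2 : f (Subgroup.topEquiv.symm (Subgroup.topEquiv y)) = 1 := h1
  rw [MulEquiv.symm_apply_apply, hy] at h2
  have h3 : (1 : ℤ) = 0 := h2
  exact one_ne_zero h3

/-- data: an injective homomorphism from a f.g. group without maps to `ℤ`, with a normal LI
subgroup of prime index. -/
def PrimeExt (G : Type) [Group G] : Prop :=
  ∃ (C : Type) (_ : Group C) (f : C →* G) (N : Subgroup C) (p : ℕ),
    Function.Injective f ∧ Group.FG C ∧ NoZ C ∧ N.Normal ∧ LI N ∧ p.Prime ∧ N.index = p

theorem PrimeExt.of_injective {G H : Type} [Group G] [Group H] (f : G →* H)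
    (hf : Function.Injective f) (h : PrimeExt G) : PrimeExt H := by
  obtain ⟨C, iC, g, N, p, hg, h⟩ := h
  exact ⟨C, iC, f.comp g, N, p, hf.comp hg, h⟩

theorem primeExt_step (n : ℕ) : ∀ (C : Type) [Group C] [Group.FG C] [Nontrivial C] (_ : NoZ C)
    (D : Subgroup C) [D.Normal] (_ : ∀ x y : C, x * y * x⁻¹ * y⁻¹ ∈ D) (_ : LI D)
    (_ : D.index = n) (_ : n ≠ 0), PrimeExt C := by
  induction n using Nat.strong_induction_on with
  | _ n ih =>
    intro C _ hCfg hCnt hC D hDn hcomm hD hidx hn
    have hn1 : n ≠ 1 := by
      intro h1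
      rw [h1, Subgroup.index_eq_one] at hidx
      subst hidx
      exact not_LI_of_noZ hC hD.of_top
    obtain ⟨p, hp, hpn⟩ := Nat.exists_prime_and_dvd hn1
    have hfact : Fact p.Prime := ⟨hp⟩
    have hcard : Nat.card (C ⧸ D) = n := hidx
    have hfin : Finite (C ⧸ D) := Nat.finite_of_card_ne_zero (by rw [hcard]; exact hn)
    obtain ⟨x, hx⟩ := exists_prime_orderOf_dvd_card' (G := C ⧸ D) p (by rw [hcard]; exact hpn)
    let Z : Subgroup (C ⧸ D) := Subgroup.zpowers x
    have hZ : Nat.card Z = p := by rw [Nat.card_zpowers, hx]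
    let D' : Subgroup C := Z.comap (QuotientGroup.mk' D)
    have hDD' : D ≤ D' := by
      intro y hy
      show (QuotientGroup.mk y : C ⧸ D) ∈ Z
      rw [(QuotientGroup.eq_one_iff y).2 hy]
      exact Z.one_mem
    by_cases hD' : LI D'
    · -- pass to D'
      have hcomm' : ∀ x y : C, x * y * x⁻¹ * y⁻¹ ∈ D' := fun x y => hDD' (hcomm x y)
      have hD'n : D'.Normal := by
        constructor
        intro a ha g
        have e : g * a * g⁻¹ = (g * a * g⁻¹ * a⁻¹) * a := by group
        rw [e]
        exact D'.mul_mem (hcomm' g a) ha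
      have hidx' : D'.index = Z.index :=
        Subgroup.index_comap_of_surjective Z (QuotientGroup.mk'_surjective D)
      have hmul := Z.card_mul_index
      rw [hZ, hcard] at hmul
      have hne : Z.index ≠ 0 := by
        intro h0
        rw [h0, mul_zero] at hmul
        exact hn hmul.symm
      have hlt : Z.index < n := by
        rw [← hmul]
        have := hp.one_lt
        nlinarith [Nat.pos_of_ne_zero hne]
      exact ih Z.index hlt C hC D' hcomm' hD' hidx' hne
    · obtain ⟨K, hKfg, hKnt, hK⟩ := exists_bad hD'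
      let f : K →* C := D'.subtype.comp K.subtype
      have hf : Function.Injective f := (Subgroup.subtype_injective D').comp (Subgroup.subtype_injective K)
      have hNn : (D.comap f).Normal := inferInstance
      have hLIN : LI (D.comap f) := LI.comap f hf D hD
      have h1 : (D.comap D'.subtype).index = p := by
        have e1 : (D.comap D'.subtype).index = D.relIndex D' := rfl
        have e2 : D = (⊥ : Subgroup (C ⧸ D)).comap (QuotientGroup.mk' D) := by
          rw [MonoidHom.comap_bot, QuotientGroup.ker_mk']
        rw [e1]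
        conv_lhs => rw [e2]
        rw [Subgroup.relIndex_comap, Subgroup.map_comap_eq_self_of_surjective
          (QuotientGroup.mk'_surjective D), Subgroup.relIndex_bot_left, hZ]
      have h2 : (D.comap f).index ∣ p := by
        have hn' : (D.comap D'.subtype).Normal := inferInstance
        have := Subgroup.relIndex_dvd_index_of_normal (D.comap D'.subtype) K
        rw [h1] at this
        exact this
      rcases (Nat.dvd_prime hp).1 h2 with h3 | h3
      · exfalso
        rw [Subgroup.index_eq_one] at h3
        rw [h3] at hLIN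
        exact not_LI_of_noZ hK hLIN.of_top
      · exact ⟨K, inferInstance, f, D.comap f, p, hf, hKfg, hK, hNn, hLIN, hp, h3⟩

/-- a group that is not LI but has an LI term in its derived series. -/
theorem primeExt_of_derived {G : Type} [Group G] (hG : ¬ LI G) (l : ℕ)
    (hl : LI (derivedSeries G l)) : PrimeExt G := by
  classical
  have hex : ∃ l, LI (derivedSeries G l) := ⟨l, hl⟩
  have hf := Nat.find_spec hex
  have hmin := fun m => @Nat.find_min _ _ hex m
  generalize Nat.find hex = j at hf hmin
  cases j with
  | zero =>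
    exfalso
    apply hG
    rw [derivedSeries_zero] at hf
    exact hf.of_top
  | succ i =>
    have hi := hmin i (Nat.lt_succ_self i)
    obtain ⟨K, hKfg, hKnt, hK⟩ := exists_bad hi
    let f : K →* G := (derivedSeries G i).subtype.comp K.subtype
    have hfi : Function.Injective f := (Subgroup.subtype_injective _).comp (Subgroup.subtype_injective K)
    let D : Subgroup K := (derivedSeries G (i + 1)).comap f
    have hDn : D.Normal := inferInstance
    have hcomm : ∀ x y : K, x * y * x⁻¹ * y⁻¹ ∈ D := by
      intro x y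
      show f (x * y * x⁻¹ * y⁻¹) ∈ derivedSeries G (i + 1)
      rw [derivedSeries_succ, map_mul, map_mul, map_mul, map_inv, map_inv]
      exact Subgroup.commutator_mem_commutator (x : derivedSeries G i).2 (y : derivedSeries G i).2
    have hLID : LI D := LI.comap f hfi _ hf
    have hfin := finite_quot hK D hcomm
    have hidx : D.index ≠ 0 := by
      have : D.index = Nat.card (K ⧸ D) := rfl
      rw [this]
      exact Nat.card_pos.ne'
    exact (primeExt_step D.index K hK D hcomm hLID rfl hidx).of_injective f hfi

end Pool.LIQuasi
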