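import Pool.Agent.LIQuasi.Core

namespace Pool.LIQuasi

section

variable {C : Type*} [Group C] (N : Subgroup C) [hNn : N.Normal] (p : ℕ) [hp : Fact p.Prime]

theorem gen_of_index (hidx : N.index = p) {g : C} (hg : g ∉ N) (x : C) :
    ∃ k : ℕ, ∃ n ∈ N, x = n * g ^ k := by
  have hcard : Nat.card (C ⧸ N) = p := hidx
  have hg' : (QuotientGroup.mk g : C ⧸ N) ≠ 1 := fun h => hg ((QuotientGroup.eq_one_iff g).1 h)
  obtain ⟨k, hk⟩ := mem_powers_of_prime_card hcard (g' := (QuotientGroup.mk x : C ⧸ N)) hg'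
  refine ⟨k, x * (g ^ k)⁻¹, ?_, by group⟩
  rw [← QuotientGroup.eq_one_iff, QuotientGroup.mk_mul, QuotientGroup.mk_inv, QuotientGroup.mk_pow]
  have hk' : (QuotientGroup.mk g : C ⧸ N) ^ k = QuotientGroup.mk x := hk
  rw [hk', mul_inv_cancel]

theorem pow_mem_of_index (hidx : N.index = p) (x : C) : x ^ p ∈ N := by
  rw [← hidx]; exact N.pow_index_mem x

theorem comm_mem_of_index (hidx : N.index = p) (x y : C) : x * y * x⁻¹ * y⁻¹ ∈ N := by
  by_cases hy : y ∈ N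
  · exact N.mul_mem (hNn.conj_mem y hy x) (N.inv_mem hy)
  · obtain ⟨k, n, hn, rfl⟩ := gen_of_index N p hidx hy x
    have e : n * y ^ k * y * (n * y ^ k)⁻¹ * y⁻¹ = n * (y * n⁻¹ * y⁻¹) := by
      have : y ^ k * y = y * y ^ k := (Commute.pow_self y k).eq
      calc n * y ^ k * y * (n * y ^ k)⁻¹ * y⁻¹ = n * (y ^ k * y) * (y ^ k)⁻¹ * n⁻¹ * y⁻¹ := by group
        _ = n * (y * y ^ k) * (y ^ k)⁻¹ * n⁻¹ * y⁻¹ := by rw [this]
        _ = n * (y * n⁻¹ * y⁻¹) := by group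
    rw [e]
    exact N.mul_mem hn (hNn.conj_mem _ (N.inv_mem hn) y)

/-- iterated differences under conjugation -/
def Dif (g : C) (φ : C → ℤ) : ℕ → C → ℤ
  | 0 => φ
  | k + 1 => fun x => Dif g φ k (g * x * g⁻¹) - Dif g φ k x

def AddOn (φ : C → ℤ) : Prop := ∀ x ∈ N, ∀ y ∈ N, φ (x * y) = φ x + φ y

variable {N} in
theorem AddOn.one {φ : C → ℤ} (h : AddOn N φ) : φ 1 = 0 := by
  have := h 1 N.one_mem 1 N.one_mem
  rw [mul_one] at this
  omega

variable {N} in
theorem AddOn.inv {φ : C → ℤ} (h : AddOn N φ) {x : C} (hx : x ∈ N) : φ x⁻¹ = - φ x := by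
  have := h x hx x⁻¹ (N.inv_mem hx)
  rw [mul_inv_cancel, h.one] at this
  omega

variable {N} in
theorem AddOn.conj {φ : C → ℤ} (h : AddOn N φ) {x y : C} (hx : x ∈ N) (hy : y ∈ N) :
    φ (x * y * x⁻¹) = φ y := by
  rw [h _ (N.mul_mem hx hy) _ (N.inv_mem hx), h _ hx _ hy, h.inv hx]
  ring

variable {N} in
theorem AddOn.pow {φ : C → ℤ} (h : AddOn N φ) {x : C} (hx : x ∈ N) (k : ℕ) :
    φ (x ^ k) = k * φ x := by
  induction k with
  | zero => simp [h.one]
  | succ k ih =>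
    rw [pow_succ, h _ (N.pow_mem hx k) _ hx, ih]
    push_cast; ring

theorem Dif_addOn (g : C) (φ : C → ℤ) (h : AddOn N φ) (k : ℕ) : AddOn N (Dif g φ k) := by
  induction k with
  | zero => exact h
  | succ k ih =>
    intro x hx y hy
    show Dif g φ k (g * (x * y) * g⁻¹) - Dif g φ k (x * y) = _
    have e : g * (x * y) * g⁻¹ = (g * x * g⁻¹) * (g * y * g⁻¹) := by group
    rw [e, ih _ (hNn.conj_mem x hx g) _ (hNn.conj_mem y hy g), ih _ hx _ hy]
    show _ = (Dif g φ k (g * x * g⁻¹) - Dif g φ k x) + (Dif g φ k (g * y * g⁻¹) - Dif g φ k y)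
    ring

/-- conjugation operator on functions -/
def sig (g : C) : (C → ZMod p) →ₗ[ZMod p] (C → ZMod p) where
  toFun f := fun x => f (g * x * g⁻¹)
  map_add' _ _ := rfl
  map_smul' _ _ := rfl

theorem sig_pow (g : C) (k : ℕ) (f : C → ZMod p) (x : C) :
    ((sig p g) ^ k) f x = f (g ^ k * x * (g ^ k)⁻¹) := by
  induction k generalizing x with
  | zero => simp
  | succ k ih =>
    rw [pow_succ', Module.End.mul_apply]
    show ((sig p g) ^ k) f (g * x * g⁻¹) = _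
    rw [ih]
    congr 1
    rw [pow_succ]; group

theorem Dif_cast (g : C) (φ : C → ℤ) (k : ℕ) (x : C) :
    ((Dif g φ k x : ℤ) : ZMod p) = ((sig p g - 1) ^ k) (fun y => ((φ y : ℤ) : ZMod p)) x := by
  induction k generalizing x with
  | zero => simp [Dif]
  | succ k ih =>
    rw [pow_succ', Module.End.mul_apply]
    show ((Dif g φ k (g * x * g⁻¹) - Dif g φ k x : ℤ) : ZMod p) =
      ((sig p g - 1) ^ k) (fun y => ((φ y : ℤ) : ZMod p)) (g * x * g⁻¹)
        - ((sig p g - 1) ^ k) (fun y => ((φ y : ℤ) : ZMod p)) x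
    rw [← ih, ← ih]
    push_cast
    ring

theorem sig_sub_pow (g : C) : (sig p g - 1) ^ p = (sig p g) ^ p - 1 := by
  have h : ((Polynomial.X : Polynomial (ZMod p)) - 1) ^ p = Polynomial.X ^ p - 1 := by
    rw [sub_pow_char, one_pow]
  have h2 := congrArg (Polynomial.aeval (sig p g)) h
  simpa using h2

/-- the last difference is divisible by `p` on `N`. -/
theorem Dif_p_dvd (hidx : N.index = p) (g : C) (φ : C → ℤ) (h : AddOn N φ) (n : C) (hn : n ∈ N) :
    (p : ℤ) ∣ Dif g φ p n := by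
  rw [← ZMod.intCast_zmod_eq_zero_iff_dvd, Dif_cast, sig_sub_pow, LinearMap.sub_apply,
    Module.End.one_apply, Pi.sub_apply, sig_pow]
  rw [h.conj (pow_mem_of_index N p hidx g) hn, sub_self]

/-- existence of a homomorphism invariant mod `p`. -/
theorem exists_inv_mod (hidx : N.index = p) (g : C) (φ : C → ℤ) (h : AddOn N φ)
    (h0 : ∃ n ∈ N, ¬ (p : ℤ) ∣ φ n) :
    ∃ φ' : C → ℤ, AddOn N φ' ∧ (∃ n ∈ N, ¬ (p : ℤ) ∣ φ' n) ∧
      ∀ n ∈ N, (p : ℤ) ∣ φ' (g * n * g⁻¹) - φ' n := by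
  classical
  have hex : ∃ k, ∀ n ∈ N, (p : ℤ) ∣ Dif g φ k n := ⟨p, fun n hn => Dif_p_dvd N p hidx g φ h n hn⟩
  have hf := Nat.find_spec hex
  have hmin := fun m => @Nat.find_min _ _ hex m
  generalize Nat.find hex = k0 at hf hmin
  cases k0 with
  | zero =>
    obtain ⟨n, hn, hnd⟩ := h0
    exact absurd (hf n hn) hnd
  | succ k =>
    refine ⟨Dif g φ k, Dif_addOn N g φ h k, ?_, hf⟩
    have := hmin k (Nat.lt_succ_self k)
    push Not at this
    exact this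

theorem exists_chi_psi (hC : NoZ C) (hidx : N.index = p) (hNfg : N.FG) (hNne : N ≠ ⊥)
    (hNLI : LI N) : ∃ χ ψ : C →* Multiplicative (ZMod p), (∀ x, χ x = 1 ↔ x ∈ N) ∧
      ∃ n ∈ N, ψ n ≠ 1 := by
  classical
  -- a generator
  obtain ⟨g, hg⟩ : ∃ g : C, g ∉ N := by
    by_contra hcon
    push Not at hcon
    have : N = ⊤ := eq_top_iff.2 fun x _ => hcon x
    rw [this, Subgroup.index_top] at hidx
    exact hp.out.one_lt.ne hidx
  -- the character χ
  obtain ⟨χ, hχ1, hχg⟩ := exists_functional N (comm_mem_of_index N p hidx) p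
    (pow_mem_of_index N p hidx) g hg
  have hχ : ∀ x, χ x = 1 ↔ x ∈ N := by
    intro x
    refine ⟨fun hx => ?_, hχ1 x⟩
    by_contra hxN
    obtain ⟨k, n, hn, hgk⟩ := gen_of_index N p hidx hxN g
    apply hχg
    rw [hgk, map_mul, map_pow, hx, hχ1 n hn]
    simp
  -- an integral homomorphism on N
  have hfg : (⊤ : Subgroup N).FG := by
    rw [← Group.fg_def]
    exact (Group.fg_iff_subgroup_fg _).2 hNfg
  have hnt : (⊤ : Subgroup N) ≠ ⊥ := by
    intro h0
    apply hNne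
    rw [eq_bot_iff]
    intro x hx
    have : (⟨x, hx⟩ : N) ∈ (⊤ : Subgroup N) := trivial
    rw [h0, Subgroup.mem_bot] at this
    rw [Subgroup.mem_bot]
    exact congrArg Subtype.val this
  obtain ⟨f, hf⟩ := hNLI ⊤ hfg hnt
  let φ0 : C → ℤ := fun x => if hx : x ∈ N then Multiplicative.toAdd (f ⟨⟨x, hx⟩, trivial⟩) else 0
  have hφ0 : AddOn N φ0 := by
    intro x hx y hy
    simp only [φ0, dif_pos hx, dif_pos hy, dif_pos (N.mul_mem hx hy)]
    rw [← toAdd_mul, ← map_mul]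
    rfl
  have hφ0' : ∃ n ∈ N, ¬ (p : ℤ) ∣ φ0 n := by
    obtain ⟨⟨⟨n, hn⟩, ht⟩, hn1⟩ := hf (Multiplicative.ofAdd 1)
    refine ⟨n, hn, ?_⟩
    simp only [φ0, dif_pos hn]
    rw [hn1]
    intro h
    have : (p : ℤ) ∣ 1 := h
    have h2 := Int.natAbs_dvd_natAbs.2 this
    simp at h2
    exact hp.out.one_lt.ne' h2
  obtain ⟨φ, hφ, ⟨n0, hn0, hn0'⟩, hφg⟩ := exists_inv_mod N p hidx g φ0 hφ0 hφ0'
  -- invariance mod p
  have hinv : ∀ c : C, ∀ n ∈ N, (p : ℤ) ∣ φ (c * n * c⁻¹) - φ n := by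
    have hpowinv : ∀ k : ℕ, ∀ n ∈ N, (p : ℤ) ∣ φ (g ^ k * n * (g ^ k)⁻¹) - φ n := by
      intro k
      induction k with
      | zero => intro n hn; simp
      | succ k ih =>
        intro n hn
        have e : g ^ (k + 1) * n * (g ^ (k + 1))⁻¹ = g ^ k * (g * n * g⁻¹) * (g ^ k)⁻¹ := by
          rw [pow_succ]; group
        rw [e]
        have h1 := ih (g * n * g⁻¹) (hNn.conj_mem n hn g)
        have h2 := hφg n hn
        have h3 := dvd_add h1 h2
        simpa using h3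
    intro c n hn
    obtain ⟨k, m, hm, rfl⟩ := gen_of_index N p hidx hg c
    have e : m * g ^ k * n * (m * g ^ k)⁻¹ = m * (g ^ k * n * (g ^ k)⁻¹) * m⁻¹ := by group
    rw [e, hφ.conj hm (hNn.conj_mem n hn _)]
    exact hpowinv k n hn
  -- p-th powers outside N
  have hpow0 : ∀ x : C, x ∉ N → φ (x ^ p) = 0 := by
    intro x hx
    let ρ : C → ℤ := fun n => ∑ i ∈ Finset.range p, φ (x ^ i * n * (x ^ i)⁻¹)
    have hρ : AddOn N ρ := by
      intro a ha b hb
      show ∑ i ∈ Finset.range p, φ (x ^ i * (a * b) * (x ^ i)⁻¹) = _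
      rw [show ρ a + ρ b = ∑ i ∈ Finset.range p, (φ (x ^ i * a * (x ^ i)⁻¹) +
        φ (x ^ i * b * (x ^ i)⁻¹)) from Finset.sum_add_distrib.symm]
      apply Finset.sum_congr rfl
      intro i _
      have e : x ^ i * (a * b) * (x ^ i)⁻¹ = (x ^ i * a * (x ^ i)⁻¹) * (x ^ i * b * (x ^ i)⁻¹) := by
        group
      rw [e, hφ _ (hNn.conj_mem a ha _) _ (hNn.conj_mem b hb _)]
    have hρx : ∀ n ∈ N, ρ (x * n * x⁻¹) = ρ n := by
      intro n hn
      have h1 : ρ (x * n * x⁻¹) = ∑ i ∈ Finset.range p, φ (x ^ (i + 1) * n * (x ^ (i + 1))⁻¹) := by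
        apply Finset.sum_congr rfl
        intro i _
        congr 1
        rw [pow_succ]; group
      have h2 := Finset.sum_range_succ' (fun i => φ (x ^ i * n * (x ^ i)⁻¹)) p
      have h3 := Finset.sum_range_succ (fun i => φ (x ^ i * n * (x ^ i)⁻¹)) p
      have h4 : φ (x ^ p * n * (x ^ p)⁻¹) = φ n := hφ.conj (pow_mem_of_index N p hidx x) hn
      rw [h1]
      rw [h2] at h3
      simp only [pow_zero, one_mul, inv_one, mul_one] at h3
      rw [h4] at h3
      have : ρ n = ∑ i ∈ Finset.range p, φ (x ^ i * n * (x ^ i)⁻¹) := rfl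
      omega
    have hρinv : ∀ c : C, ∀ m ∈ N, ρ (c * m * c⁻¹) = ρ m := by
      have hk : ∀ k : ℕ, ∀ n ∈ N, ρ (x ^ k * n * (x ^ k)⁻¹) = ρ n := by
        intro k
        induction k with
        | zero => intro n hn; simp
        | succ k ih =>
          intro n hn
          have e : x ^ (k + 1) * n * (x ^ (k + 1))⁻¹ = x ^ k * (x * n * x⁻¹) * (x ^ k)⁻¹ := by
            rw [pow_succ]; group
          rw [e, ih _ (hNn.conj_mem n hn x), hρx n hn]
      intro c n hn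
      obtain ⟨k, m, hm, rfl⟩ := gen_of_index N p hidx hx c
      have e : m * x ^ k * n * (m * x ^ k)⁻¹ = m * (x ^ k * n * (x ^ k)⁻¹) * m⁻¹ := by group
      rw [e, hρ.conj hm (hNn.conj_mem n hn _), hk k n hn]
    have hz := invariant_zero hC N (comm_mem_of_index N p hidx) p hp.out.ne_zero
      (pow_mem_of_index N p hidx) ρ hρ hρinv (x ^ p) (pow_mem_of_index N p hidx x)
    have hz2 : ρ (x ^ p) = p * φ (x ^ p) := by
      show ∑ i ∈ Finset.range p, φ (x ^ i * x ^ p * (x ^ i)⁻¹) = _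
      rw [Finset.sum_congr rfl (g := fun _ => φ (x ^ p))]
      · simp
      · intro i _
        congr 1
        rw [← pow_add, add_comm, pow_add]; group
    rw [hz2] at hz
    rcases mul_eq_zero.1 hz with h | h
    · exact absurd (by exact_mod_cast h) hp.out.ne_zero
    · exact h
  -- the subgroup M'
  let M : Subgroup C :=
    { carrier := {x | x ∈ N ∧ (p : ℤ) ∣ φ x}
      mul_mem' := by
        rintro a b ⟨ha, ha'⟩ ⟨hb, hb'⟩
        exact ⟨N.mul_mem ha hb, by rw [hφ a ha b hb]; exact dvd_add ha' hb'⟩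
      one_mem' := ⟨N.one_mem, by rw [hφ.one]; exact dvd_zero _⟩
      inv_mem' := by
        rintro a ⟨ha, ha'⟩
        exact ⟨N.inv_mem ha, by rw [hφ.inv ha]; exact (dvd_neg).2 ha'⟩ }
  have hMn : M.Normal := by
    constructor
    rintro n ⟨hn, hn'⟩ c
    refine ⟨hNn.conj_mem n hn c, ?_⟩
    have h3 := dvd_add (hinv c n hn) hn'
    simpa using h3
  have hMcomm : ∀ x y : C, x * y * x⁻¹ * y⁻¹ ∈ M := by
    intro x y
    refine ⟨comm_mem_of_index N p hidx x y, ?_⟩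
    by_cases hy : y ∈ N
    · rw [hφ _ (hNn.conj_mem y hy x) _ (N.inv_mem hy), hφ.inv hy]
      exact hinv x y hy
    · obtain ⟨k, n, hn, rfl⟩ := gen_of_index N p hidx hy x
      have e : n * y ^ k * y * (n * y ^ k)⁻¹ * y⁻¹ = n * (y * n⁻¹ * y⁻¹) := by
        have : y ^ k * y = y * y ^ k := (Commute.pow_self y k).eq
        calc n * y ^ k * y * (n * y ^ k)⁻¹ * y⁻¹ = n * (y ^ k * y) * (y ^ k)⁻¹ * n⁻¹ * y⁻¹ := by group
          _ = n * (y * y ^ k) * (y ^ k)⁻¹ * n⁻¹ * y⁻¹ := by rw [this]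
          _ = n * (y * n⁻¹ * y⁻¹) := by group
      rw [e, hφ _ hn _ (hNn.conj_mem _ (N.inv_mem hn) y)]
      have h1 := hinv y n⁻¹ (N.inv_mem hn)
      rw [hφ.inv hn] at h1
      have e2 : φ n + φ (y * n⁻¹ * y⁻¹) = φ (y * n⁻¹ * y⁻¹) - -φ n := by ring
      rw [e2]; exact h1
  have hMpow : ∀ x : C, x ^ p ∈ M := by
    intro x
    refine ⟨pow_mem_of_index N p hidx x, ?_⟩
    by_cases hx : x ∈ N
    · rw [hφ.pow hx]; exact dvd_mul_right _ _
    · rw [hpow0 x hx]; exact dvd_zero _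
  obtain ⟨ψ, -, hψ⟩ := exists_functional M hMcomm p hMpow n0 (fun h => hn0' h.2)
  exact ⟨χ, ψ, hχ, n0, hn0, hψ⟩

end

end Pool.LIQuasi
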