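import Pool.Agent.LIQuasi.Prime

/-! Quasimorphisms on soluble groups are close to homomorphisms. -/

namespace Pool.LIQuasi

theorem eq_zero_of_nat_mul_le {x C : ℝ} (h : ∀ n : ℕ, (n : ℝ) * |x| ≤ C) : x = 0 := by
  by_contra hx
  have hx' : 0 < |x| := abs_pos.2 hx
  obtain ⟨n, hn⟩ := exists_nat_gt (C / |x|)
  have h1 := h n
  rw [div_lt_iff₀ hx'] at hn
  linarith

/-- homogenisation, with additivity on commuting pairs. -/
theorem homogenise {Γ : Type} [Group Γ] (q : Γ → ℝ) (D : ℝ)
    (hq : ∀ x y, |q (x * y) - q x - q y| ≤ D) :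
    ∃ T : Γ → ℝ, (∀ x, |T x - q x| ≤ D) ∧ (∀ x y, |T (x * y) - T x - T y| ≤ 4 * D) ∧
      (∀ x y, x * y = y * x → T (x * y) = T x + T y) ∧ ∀ (x : Γ) (n : ℕ), T (x ^ n) = n * T x := by
  have hD : 0 ≤ D := le_trans (abs_nonneg _) (hq 1 1)
  let f : Γ → ℕ → ℝ := fun x n => q (x ^ (2 ^ n)) / 2 ^ n
  have hf : ∀ x n, dist (f x n) (f x (n + 1)) ≤ D / 2 / 2 ^ n := by
    intro x n
    have h1 := hq (x ^ (2 ^ n)) (x ^ (2 ^ n))
    have e : x ^ (2 ^ n) * x ^ (2 ^ n) = x ^ (2 ^ (n + 1)) := by
      rw [← pow_add]; congr 1; ring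
    rw [e] at h1
    have h2 : (0 : ℝ) < 2 ^ n := by positivity
    have e2 : f x n - f x (n + 1) = -((q (x ^ (2 ^ (n + 1))) - q (x ^ (2 ^ n)) - q (x ^ (2 ^ n))) / (2 * 2 ^ n)) := by
      show q (x ^ (2 ^ n)) / 2 ^ n - q (x ^ (2 ^ (n + 1))) / 2 ^ (n + 1) = _
      rw [pow_succ (2 : ℝ)]
      field_simp
      ring
    rw [Real.dist_eq, e2, abs_neg, abs_div, abs_of_pos (by positivity : (0 : ℝ) < 2 * 2 ^ n), div_div]
    exact div_le_div_of_nonneg_right h1 (by positivity)
  have hc : ∀ x, CauchySeq (f x) := fun x => cauchySeq_of_le_geometric_two (hf x)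
  choose T hT using fun x => cauchySeq_tendsto_of_complete (hc x)
  have hTq : ∀ x, |T x - q x| ≤ D := by
    intro x
    have h1 := dist_le_of_le_geometric_two_of_tendsto₀ (hf x) (hT x)
    rw [dist_comm, Real.dist_eq] at h1
    have e : f x 0 = q x := by simp [f]
    rwa [e] at h1
  have hTT : ∀ x y, |T (x * y) - T x - T y| ≤ 4 * D := by
    intro x y
    have h1 := abs_le.1 (hTq (x * y))
    have h2 := abs_le.1 (hTq x)
    have h3 := abs_le.1 (hTq y)
    have h4 := abs_le.1 (hq x y)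
    rw [abs_le]
    constructor <;> linarith [h1.1, h1.2, h2.1, h2.2, h3.1, h3.2, h4.1, h4.2]
  have hT2 : ∀ x, T (x ^ 2) = 2 * T x := by
    intro x
    have h1 : Filter.Tendsto (fun n => 2 * f x (n + 1)) Filter.atTop (nhds (2 * T x)) :=
      ((Filter.tendsto_add_atTop_iff_nat 1).2 (hT x)).const_mul 2
    have h2 : (fun n => 2 * f x (n + 1)) = f (x ^ 2) := by
      funext n
      show 2 * (q (x ^ (2 ^ (n + 1))) / 2 ^ (n + 1)) = q ((x ^ 2) ^ (2 ^ n)) / 2 ^ n
      rw [← pow_mul, pow_succ (2 : ℝ), pow_succ' 2 n]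
      field_simp
    rw [h2] at h1
    exact tendsto_nhds_unique (hT (x ^ 2)) h1
  have hT2k : ∀ (k : ℕ) x, T (x ^ (2 ^ k)) = 2 ^ k * T x := by
    intro k
    induction k with
    | zero => intro x; simp
    | succ k ih =>
      intro x
      rw [pow_succ, pow_mul, hT2, ih, pow_succ]; ring
  have hcomm : ∀ x y, x * y = y * x → T (x * y) = T x + T y := by
    intro x y hxy
    have h0 : T (x * y) - T x - T y = 0 := by
      by_contra hne
      have hpos : 0 < |T (x * y) - T x - T y| := abs_pos.2 hne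
      obtain ⟨k, hk⟩ := pow_unbounded_of_one_lt (4 * D / |T (x * y) - T x - T y|) (one_lt_two)
      rw [div_lt_iff₀ hpos] at hk
      have h1 := hTT (x ^ (2 ^ k)) (y ^ (2 ^ k))
      have hC : Commute x y := hxy
      rw [← hC.mul_pow, hT2k, hT2k, hT2k, ← mul_sub, ← mul_sub, abs_mul,
        abs_of_pos (by positivity : (0 : ℝ) < 2 ^ k)] at h1
      linarith
    linarith
  refine ⟨T, hTq, hTT, hcomm, ?_⟩
  intro x n
  induction n with
  | zero =>
    have := hcomm 1 1 rfl
    rw [mul_one] at this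
    simp; linarith
  | succ n ih =>
    rw [pow_succ, hcomm _ _ (Commute.pow_self x n).eq, ih]
    push_cast; ring

/-- on soluble groups quasimorphisms are at bounded distance from homomorphisms. -/
theorem qm_hom {Γ : Type} [Group Γ] (n : ℕ) (hn : derivedSeries Γ n = ⊥) (q : Γ → ℝ) (D : ℝ)
    (hq : ∀ x y, |q (x * y) - q x - q y| ≤ D) :
    ∃ T : Γ → ℝ, (∀ x, |T x - q x| ≤ D) ∧ (∀ x y, T (x * y) = T x + T y) := by
  obtain ⟨T, h1, h2, h3, h4⟩ := homogenise q D hq
  have hone : T 1 = 0 := by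
    have := h3 1 1 rfl
    rw [mul_one] at this
    linarith
  have hinv : ∀ x, T x⁻¹ = - T x := by
    intro x
    have := h3 x x⁻¹ (by rw [mul_inv_cancel, inv_mul_cancel])
    rw [mul_inv_cancel, hone] at this
    linarith
  have hconj : ∀ h x, T (h * x * h⁻¹) = T x := by
    intro h x
    have key : T (h * x * h⁻¹) - T x = 0 := by
      apply eq_zero_of_nat_mul_le (C := 8 * D)
      intro k
      have e1 : (k : ℝ) * |T (h * x * h⁻¹) - T x| = |T (h * x ^ k * h⁻¹) - T (x ^ k)| := by
        rw [← conj_pow, h4, h4, ← mul_sub, abs_mul, Nat.abs_cast]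
      rw [e1]
      have a1 := abs_le.1 (h2 (h * x ^ k) h⁻¹)
      have a2 := abs_le.1 (h2 h (x ^ k))
      rw [hinv] at a1
      rw [abs_le]
      constructor <;> linarith [a1.1, a1.2, a2.1, a2.2]
    linarith
  have main : ∀ j ≤ n, ∀ x ∈ derivedSeries Γ (n - j), ∀ y ∈ derivedSeries Γ (n - j),
      T (x * y) = T x + T y := by
    intro j
    induction j with
    | zero =>
      intro _ x hx y hy
      rw [Nat.sub_zero, hn, Subgroup.mem_bot] at hx hy
      subst hx; subst hy
      rw [mul_one, hone]; ring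
    | succ j ih =>
      intro hj
      have ih' := ih (by omega)
      obtain ⟨k, hk⟩ : ∃ k, n - j = k + 1 := ⟨n - j - 1, by omega⟩
      have hk' : n - (j + 1) = k := by omega
      rw [hk] at ih'
      rw [hk']
      have hNn : (derivedSeries Γ (k + 1)).Normal := inferInstance
      have hcm : ∀ x ∈ derivedSeries Γ k, ∀ y ∈ derivedSeries Γ k,
          x * y * x⁻¹ * y⁻¹ ∈ derivedSeries Γ (k + 1) := by
        intro x hx y hy
        rw [derivedSeries_succ]
        exact Subgroup.commutator_mem_commutator hx hy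
      -- T vanishes on commutators
      have hc0 : ∀ x ∈ derivedSeries Γ k, ∀ y ∈ derivedSeries Γ k, T (x * y * x⁻¹ * y⁻¹) = 0 := by
        intro x hx y hy
        have hm : ∀ m : ℕ, T (x ^ m * y * (x ^ m)⁻¹ * y⁻¹) = m * T (x * y * x⁻¹ * y⁻¹) := by
          intro m
          induction m with
          | zero => simp [hone]
          | succ m ihm =>
            have e : x ^ (m + 1) * y * (x ^ (m + 1))⁻¹ * y⁻¹
                = (x ^ m * (x * y * x⁻¹ * y⁻¹) * (x ^ m)⁻¹) * (x ^ m * y * (x ^ m)⁻¹ * y⁻¹) := by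
              rw [pow_succ]; group
            rw [e, ih' _ (hNn.conj_mem _ (hcm x hx y hy) _) _
              (hcm _ (Subgroup.pow_mem _ hx m) y hy), hconj, ihm]
            push_cast; ring
        apply eq_zero_of_nat_mul_le (C := 4 * D)
        intro m
        have e1 : (m : ℝ) * |T (x * y * x⁻¹ * y⁻¹)| = |T (x ^ m * y * (x ^ m)⁻¹ * y⁻¹)| := by
          rw [hm, abs_mul, Nat.abs_cast]
        rw [e1]
        have e2 : x ^ m * y * (x ^ m)⁻¹ * y⁻¹ = x ^ m * (y * (x ^ m)⁻¹ * y⁻¹) := by group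
        have a1 := h2 (x ^ m) (y * (x ^ m)⁻¹ * y⁻¹)
        rw [← e2, hconj, hinv] at a1
        have e3 : T (x ^ m * y * (x ^ m)⁻¹ * y⁻¹) - T (x ^ m) - -T (x ^ m)
          = T (x ^ m * y * (x ^ m)⁻¹ * y⁻¹) := by ring
        rwa [e3] at a1
      -- T vanishes on the next term
      have hz : ∀ c ∈ derivedSeries Γ (k + 1), T c = 0 := by
        have hsub : derivedSeries Γ (k + 1) ≤
            { carrier := {c | c ∈ derivedSeries Γ (k + 1) ∧ T c = 0}
              mul_mem' := by
                rintro a b ⟨ha, ha'⟩ ⟨hb, hb'⟩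
                exact ⟨Subgroup.mul_mem _ ha hb, by rw [ih' a ha b hb, ha', hb', add_zero]⟩
              one_mem' := ⟨Subgroup.one_mem _, hone⟩
              inv_mem' := by
                rintro a ⟨ha, ha'⟩
                exact ⟨Subgroup.inv_mem _ ha, by rw [hinv, ha', neg_zero]⟩ : Subgroup Γ } := by
          conv_lhs => rw [derivedSeries_succ]
          rw [Subgroup.commutator_le]
          intro x hx y hy
          exact ⟨hcm x hx y hy, hc0 x hx y hy⟩
        intro c hc
        exact (hsub hc).2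
      intro x hx y hy
      have key : T (x * y) - T x - T y = 0 := by
        apply eq_zero_of_nat_mul_le (C := 8 * D)
        intro m
        have hC : Commute (QuotientGroup.mk x : Γ ⧸ derivedSeries Γ (k + 1)) (QuotientGroup.mk y) := by
          show (QuotientGroup.mk x : Γ ⧸ derivedSeries Γ (k + 1)) * QuotientGroup.mk y
            = QuotientGroup.mk y * QuotientGroup.mk x
          rw [← QuotientGroup.mk_mul, ← QuotientGroup.mk_mul, QuotientGroup.eq]
          have := hcm y⁻¹ (Subgroup.inv_mem _ hy) x⁻¹ (Subgroup.inv_mem _ hx)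
          have e : (x * y)⁻¹ * (y * x) = y⁻¹ * x⁻¹ * (y⁻¹)⁻¹ * (x⁻¹)⁻¹ := by group
          rw [e]; exact this
        have hmem : (x ^ m * y ^ m)⁻¹ * (x * y) ^ m ∈ derivedSeries Γ (k + 1) := by
          rw [← QuotientGroup.eq, QuotientGroup.mk_mul, QuotientGroup.mk_pow, QuotientGroup.mk_pow,
            QuotientGroup.mk_pow, QuotientGroup.mk_mul, hC.mul_pow]
        have hc := hz _ hmem
        have e : (x * y) ^ m = (x ^ m * y ^ m) * ((x ^ m * y ^ m)⁻¹ * (x * y) ^ m) := by group
        have a1 := h2 (x ^ m * y ^ m) ((x ^ m * y ^ m)⁻¹ * (x * y) ^ m)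
        rw [← e, hc] at a1
        have a2 := h2 (x ^ m) (y ^ m)
        have e1 : (m : ℝ) * |T (x * y) - T x - T y| = |T ((x * y) ^ m) - T (x ^ m) - T (y ^ m)| := by
          rw [h4, h4, h4, ← mul_sub, ← mul_sub, abs_mul, Nat.abs_cast]
        rw [e1]
        have a1' := abs_le.1 a1
        have a2' := abs_le.1 a2
        rw [abs_le]
        constructor <;> linarith [a1'.1, a1'.2, a2'.1, a2'.2]
      linarith
  refine ⟨T, h1, ?_⟩
  intro x y
  have := main n le_rfl x (by simp) y (by simp)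
  exact this

/-- homomorphisms to `ℝ` of f.g. groups without homomorphisms to `ℤ`. -/
theorem hom_real_zero {G : Type} [Group G] [Group.FG G] (hG : NoZ G) (T : G → ℝ)
    (hT : ∀ x y, T (x * y) = T x + T y) : ∀ x, T x = 0 := by
  have hone : T 1 = 0 := by
    have := hT 1 1
    rw [mul_one] at this
    linarith
  have hinv : ∀ x, T x⁻¹ = - T x := by
    intro x
    have := hT x x⁻¹
    rw [mul_inv_cancel, hone] at this
    linarith
  let f : G →* Multiplicative ℝ := MonoidHom.mk' (fun x => Multiplicative.ofAdd (T x)) (by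
    intro a b; rw [hT]; rfl)
  have hcomm : ∀ x y : G, x * y * x⁻¹ * y⁻¹ ∈ f.ker := by
    intro x y
    rw [MonoidHom.mem_ker]
    show Multiplicative.ofAdd (T (x * y * x⁻¹ * y⁻¹)) = 1
    rw [hT, hT, hT, hinv, hinv]
    have : T x + T y + -T x + -T y = 0 := by ring
    rw [this]; rfl
  have hfin := finite_quot hG f.ker hcomm
  intro x
  have h1 : x ^ (Nat.card (G ⧸ f.ker)) ∈ f.ker := by
    rw [← QuotientGroup.eq_one_iff, QuotientGroup.mk_pow]
    exact pow_card_eq_one'
  have hpow : ∀ k : ℕ, T (x ^ k) = k * T x := by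
    intro k
    induction k with
    | zero => simp [hone]
    | succ k ih => rw [pow_succ, hT, ih]; push_cast; ring
  have h2 : T (x ^ (Nat.card (G ⧸ f.ker))) = 0 := h1
  rw [hpow] at h2
  rcases mul_eq_zero.1 h2 with h3 | h3
  · have : Nat.card (G ⧸ f.ker) ≠ 0 := Nat.card_pos.ne'
    exact absurd (by exact_mod_cast h3) this
  · exact h3

end Pool.LIQuasi
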